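import Mathlib

/-!
Formulas of bounded alternation depth, Frege (sequent) systems, and refutations of the pigeonhole
principle.
-/

namespace Pool.Agent.TH710.PHP

open Finset

/-- Formulas over the variables `α` with negation, conjunction and disjunction of any finite number
of formulas. -/
inductive Fm (α : Type) : Type
  | var (a : α) : Fm α
  | neg (φ : Fm α) : Fm α
  | and (t : ℕ) (φs : Fin t → Fm α) : Fm α
  | or (t : ℕ) (φs : Fin t → Fm α) : Fm α

variable {α : Type}

/-- The size of a formula: its number of symbols (occurrences of variables and connectives). -/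
def Fm.size : Fm α → ℕ
  | .var _ => 1
  | .neg φ => φ.size + 1
  | .and _ φs => (∑ j, (φs j).size) + 1
  | .or _ φs => (∑ j, (φs j).size) + 1

/-- `φ.alt s` is the maximal number of alternations of disjunction and conjunction on a path from
the root of `φ` to a variable, negations being pushed to the variables, where an additional
disjunction (if `s = true`) or conjunction (if `s = false`) above `φ` is not counted. -/
def Fm.alt : Bool → Fm α → ℕ
  | _, .var _ => 0
  | s, .neg φ => φ.alt (!s)
  | true, .and _ φs => univ.sup (fun j => (φs j).alt false) + 1
  | false, .and _ φs => univ.sup (fun j => (φs j).alt false)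
  | true, .or _ φs => univ.sup (fun j => (φs j).alt true)
  | false, .or _ φs => univ.sup (fun j => (φs j).alt true) + 1

/-- The depth of a formula: the maximal number of alternations of disjunction and conjunction on a
path from the root to a variable, negations being pushed to the variables. A literal has depth 0, a
clause has depth 1, a CNF has depth 2. -/
def Fm.depth (φ : Fm α) : ℕ := max (φ.alt true) (φ.alt false)

open Classical in
/-- The set of all subformulas. -/
noncomputable def Fm.sub : Fm α → Finset (Fm α)
  | .var a => {.var a}
  | .neg φ => insert (.neg φ) φ.sub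
  | .and t φs => insert (.and t φs) (univ.biUnion (fun j => (φs j).sub))
  | .or t φs => insert (.or t φs) (univ.biUnion (fun j => (φs j).sub))

/-- `V` assigns truth values to all formulas; it respects the outermost connective of the given
formula. -/
def RespAt (V : Fm α → Bool) : Fm α → Prop
  | .var _ => True
  | .neg φ => V (.neg φ) = !(V φ)
  | .and t φs => V (.and t φs) = true ↔ ∀ j, V (φs j) = true
  | .or t φs => V (.or t φs) = true ↔ ∃ j, V (φs j) = true

open Classical in
/-- All subformulas of the lines. -/
noncomputable def allSub {T : ℕ} (L : Fin T → Fm α) : Finset (Fm α) :=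
  univ.biUnion (fun i => (L i).sub)

/-- `c`-local inference of line `i` under the hypothesis `H`: there are at most `c` earlier lines
and at most `c` subformulas of the lines such that the inference of line `i` from these earlier
lines and `H` is sound as soon as the outermost connectives of the chosen subformulas are
respected. -/
def Local (c : ℕ) {T : ℕ} (L : Fin T → Fm α) (i : Fin T) (H : (Fm α → Bool) → Prop) : Prop :=
  ∃ (P : Finset (Fin T)) (Q : Finset (Fm α)), P.card ≤ c ∧ Q.card ≤ c ∧ (∀ j ∈ P, j < i) ∧
    Q ⊆ allSub L ∧
    ∀ V : Fm α → Bool, (∀ χ ∈ Q, RespAt V χ) → (∀ j ∈ P, V (L j) = true) → H V →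
      V (L i) = true

/-- Line `i` follows by a sound rule: either by a `c`-local inference (every instance of a sound
rule scheme with at most `c` premises and at most `c` subformulas in its scheme is of this form),
or by a case distinction with any number of premises, as in the rules of the sequent calculus for
conjunctions and disjunctions of unbounded fan-in: for some subformula `⋀ φ_j` of the lines, line
`i` follows by a `c`-local inference from `⋀ φ_j`, and for every `j` from `¬ φ_j`; or for some
subformula `⋁ φ_j` line `i` follows by a `c`-local inference from `¬ ⋁ φ_j`, and for every `j`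
from `φ_j`. -/
def Inferred (c : ℕ) {T : ℕ} (L : Fin T → Fm α) (i : Fin T) : Prop :=
  Local c L i (fun _ => True) ∨
  (∃ (t : ℕ) (φs : Fin t → Fm α), Fm.and t φs ∈ allSub L ∧
    Local c L i (fun V => V (.and t φs) = true) ∧
    ∀ j, Local c L i (fun V => V (φs j) = false)) ∨
  (∃ (t : ℕ) (φs : Fin t → Fm α), Fm.or t φs ∈ allSub L ∧
    Local c L i (fun V => V (.or t φs) = false) ∧
    ∀ j, Local c L i (fun V => V (φs j) = true))

/-- `φ` is (a weakening of) a clause of the pigeonhole principle with `m` pigeons and `n` holes: a
disjunction which contains all variables `x_(i,j)`, `j < n`, for some pigeon `i`, or the negations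
of `x_(i,j)` and `x_(i',j)` for two pigeons `i ≠ i'` and a hole `j`. -/
def IsClause {m n : ℕ} (φ : Fm (Fin m × Fin n)) : Prop :=
  ∃ (t : ℕ) (φs : Fin t → Fm (Fin m × Fin n)), φ = .or t φs ∧
    ((∃ i : Fin m, ∀ j : Fin n, ∃ l, φs l = .var (i, j)) ∨
      (∃ (i i' : Fin m) (j : Fin n), i ≠ i' ∧
        (∃ l, φs l = .neg (.var (i, j))) ∧ ∃ l, φs l = .neg (.var (i', j))))

/-- A refutation of the pigeonhole principle with `m` pigeons and `n` holes all of whose lines
belong to the class `A` of formulas: every line is a clause or inferred from earlier lines, and some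
line is the empty disjunction. -/
structure Refutation (c : ℕ) {m n : ℕ} (A : Fm (Fin m × Fin n) → Prop) where
  len : ℕ
  line : Fin len → Fm (Fin m × Fin n)
  mem : ∀ i, A (line i)
  sound : ∀ i, IsClause (line i) ∨ Inferred c line i
  contra : ∃ i f, line i = .or 0 f

/-- The size of a refutation: the total number of symbols of its lines. -/
def Refutation.size {c m n : ℕ} {A : Fm (Fin m × Fin n) → Prop} (R : Refutation c A) : ℕ :=
  ∑ i, (R.line i).size

/-- Literals. -/
def IsLit (φ : Fm α) : Prop := ∃ a, φ = .var a ∨ φ = .neg (.var a)

/-- Clauses of width at most `w`, written as disjunctions. -/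
def IsNarrow (w : ℕ) (φ : Fm α) : Prop :=
  ∃ (t : ℕ) (φs : Fin t → Fm α), t ≤ w ∧ φ = .or t φs ∧ ∀ j, IsLit (φs j)

/-- The sequents of `R(w)`: disjunctions of (any number of) literals, clauses of width at most `w`
and negations of clauses of width at most `w`. -/
def IsRLine (w : ℕ) (φ : Fm α) : Prop :=
  ∃ (t : ℕ) (φs : Fin t → Fm α), φ = .or t φs ∧
    ∀ j, IsLit (φs j) ∨ IsNarrow w (φs j) ∨ ∃ ψ, IsNarrow w ψ ∧ φs j = .neg ψ

end Pool.Agent.TH710.PHP
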