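import Pool.Agent.TH710.PHP.Force

/-!
The encoding behind the switching lemma for partial matchings.
-/

set_option linter.unusedSectionVars false

namespace Pool.Agent.TH710.PHP

open Finset

variable {n : ℕ}

section enc

variable (Tm : PS n → Prop) (rk : PS n → ℕ)

/-- `t` is the first term compatible with `ρ` -/
def IsFirst (ρ t : PS n) : Prop :=
  Tm t ∧ IsPP (t ∪ ρ) ∧ ∀ t', Tm t' → IsPP (t' ∪ ρ) → rk t ≤ rk t'

/-- `π` covers the elements of the blocks in `δ`, economically -/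
def IsCov (ρ δ π : PS n) : Prop :=
  IsPP (ρ ∪ π) ∧ Disjoint ρ π ∧ (∀ B ∈ π, ¬ Disjoint B (cov δ)) ∧ cov δ ⊆ cov π

/-- paths of the canonical decision tree, with their codes -/
inductive Enc : ℕ → PS n → PS n → Prop
  | nil (ρ : PS n) : Enc 0 ρ ρ
  | cons {ρ t π ρ' : PS n} {j : ℕ} (h1 : IsFirst Tm rk ρ t) (h2 : (t \ ρ).Nonempty)
      (h3 : IsCov ρ (t \ ρ) π) (h4 : Enc j (ρ ∪ π) ρ') :
      Enc (j + (t \ ρ).card) ρ ((ρ' \ π) ∪ (t \ ρ))

variable {Tm rk}

lemma cov_aux {ρ t π ρ' : PS n} (h3 : IsCov ρ (t \ ρ) π) (hs : ρ ∪ π ⊆ ρ')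
    (hPP : IsPP ρ') {B C : Finset (V n)} (hB : B ∈ ρ' \ π) (hC : C ∈ t \ ρ) :
    Disjoint B C := by
  refine Finset.disjoint_left.mpr (fun x hx hx' => ?_)
  obtain ⟨D, hD, hxD⟩ := mem_cov.mp (h3.2.2.2 (mem_cov.mpr ⟨C, hC, hx'⟩))
  have hDρ : D ∈ ρ' := hs (mem_union_right _ hD)
  have := hPP.eq_of_mem (mem_sdiff.mp hB).1 hDρ hx hxD
  subst this
  exact (mem_sdiff.mp hB).2 hD

lemma Enc.props {j : ℕ} {ρ ρ' : PS n} (h : Enc Tm rk j ρ ρ') :
    IsPP ρ → ρ ⊆ ρ' ∧ IsPP ρ' ∧ ρ'.card = ρ.card + j := by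
  classical
  induction h with
  | nil ρ => intro h; exact ⟨subset_rfl, h, rfl⟩
  | @cons ρ t π ρ' j h1 h2 h3 h4 ih =>
    intro hρ
    obtain ⟨hs, hPP, hcard⟩ := ih h3.1
    have hdisj : Disjoint (ρ' \ π) (t \ ρ) := by
      refine Finset.disjoint_left.mpr (fun B hB hB' => ?_)
      have h5 := cov_aux h3 hs hPP hB hB'
      rw [disjoint_self_iff_empty] at h5
      have h6 := hPP.card_two (mem_sdiff.mp hB).1
      rw [h5] at h6
      simp at h6
    refine ⟨?_, ⟨?_, ?_⟩, ?_⟩
    · intro B hB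
      refine mem_union_left _ (mem_sdiff.mpr ⟨hs (mem_union_left _ hB), fun hπ => ?_⟩)
      exact Finset.disjoint_left.mp h3.2.1 hB hπ
    · intro B hB
      rcases mem_union.mp hB with hB | hB
      · exact hPP.1 B (mem_sdiff.mp hB).1
      · exact h1.2.1.1 B (mem_union_left _ (mem_sdiff.mp hB).1)
    · intro B hB C hC hne
      rcases mem_union.mp hB with hB | hB <;> rcases mem_union.mp hC with hC | hC
      · exact hPP.2 B (mem_sdiff.mp hB).1 C (mem_sdiff.mp hC).1 hne
      · exact cov_aux h3 hs hPP hB hC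
      · exact (cov_aux h3 hs hPP hC hB).symm
      · exact h1.2.1.2 B (mem_union_left _ (mem_sdiff.mp hB).1) C
          (mem_union_left _ (mem_sdiff.mp hC).1) hne
    · rw [card_union_of_disjoint hdisj]
      have e1 : (ρ' \ π).card + π.card = ρ'.card :=
        card_sdiff_add_card_eq_card (subset_union_right.trans hs)
      have e2 : (ρ ∪ π).card = ρ.card + π.card := card_union_of_disjoint h3.2.1
      omega

/-- data of a nonempty code -/
lemma Enc.decode {j : ℕ} {ρ ρ'' : PS n} (h : Enc Tm rk j ρ ρ'') (hj : j ≠ 0)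
    (hρ : IsPP ρ) :
    ∃ t δ π : PS n, IsFirst Tm rk ρ'' t ∧ δ ⊆ t ∧ Disjoint δ ρ ∧ δ.Nonempty ∧ δ.card ≤ j ∧
      δ ⊆ ρ'' ∧ IsPP (ρ ∪ π) ∧ Disjoint ρ π ∧
      (∀ B ∈ π, ¬ Disjoint B (cov δ)) ∧ cov δ ⊆ cov π ∧
      (∀ B ∈ π, B.card = 2 ∧ B ⊆ univ \ cov (ρ'' \ δ)) ∧
      Enc Tm rk (j - δ.card) (ρ ∪ π) ((ρ'' \ δ) ∪ π) := by
  classical
  cases h with
  | nil ρ => exact absurd rfl hj
  | @cons ρ t π ρ' j h1 h2 h3 h4 =>
    obtain ⟨hs, hPP, hcard⟩ := h4.props h3.1
    have hEnc := Enc.cons h1 h2 h3 h4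
    obtain ⟨g1, g2, g3⟩ := hEnc.props hρ
    have hdisj : Disjoint (ρ' \ π) (t \ ρ) := by
      refine Finset.disjoint_left.mpr (fun B hB hB' => ?_)
      have h5 := cov_aux h3 hs hPP hB hB'
      rw [disjoint_self_iff_empty] at h5
      have h6 := hPP.card_two (mem_sdiff.mp hB).1
      rw [h5] at h6
      simp at h6
    have hsd : ((ρ' \ π) ∪ (t \ ρ)) \ (t \ ρ) = ρ' \ π := by
      rw [union_sdiff_right]
      exact sdiff_eq_self_of_disjoint hdisj
    have htsub : t ⊆ (ρ' \ π) ∪ (t \ ρ) := by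
      intro B hB
      by_cases hBρ : B ∈ ρ
      · exact g1 hBρ
      · exact mem_union_right _ (mem_sdiff.mpr ⟨hB, hBρ⟩)
    refine ⟨t, t \ ρ, π, ⟨h1.1, ?_, ?_⟩, sdiff_subset, sdiff_disjoint, h2, by omega,
      subset_union_right, h3.1, h3.2.1, h3.2.2.1, h3.2.2.2, ?_, ?_⟩
    · rw [union_eq_right.mpr htsub]
      exact g2
    · intro t' ht' hc
      exact h1.2.2 t' ht' (hc.mono (union_subset_union_right g1))
    · intro B hB
      refine ⟨h3.1.card_two (mem_union_right _ hB), ?_⟩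
      rw [hsd]
      intro x hx
      refine mem_sdiff.mpr ⟨mem_univ _, fun hx' => ?_⟩
      obtain ⟨C, hC, hxC⟩ := mem_cov.mp hx'
      have := hPP.eq_of_mem (hs (mem_union_right _ hB)) (mem_sdiff.mp hC).1 hx hxC
      subst this
      exact (mem_sdiff.mp hC).2 hB
    · rw [hsd, Nat.add_sub_cancel, sdiff_union_of_subset (subset_union_right.trans hs)]
      exact h4

end enc

section count

/-- few exact covers -/
lemma card_covers (X : Finset (V n)) (𝓑 : Finset (Finset (V n))) (PC : Finset (PS n))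
    (h : ∀ π ∈ PC, (∀ B ∈ π, B ∈ 𝓑 ∧ ¬ Disjoint B X) ∧ X ⊆ cov π ∧
      ∀ B ∈ π, ∀ C ∈ π, B ≠ C → Disjoint B C) :
    PC.card ≤ 𝓑.card ^ X.card := by
  classical
  have h1 : PC ⊆ (Fintype.piFinset (fun _ : X => 𝓑)).image (fun f => univ.image f) := by
    intro π hπ
    obtain ⟨h2, h3, h4⟩ := h π hπ
    have h5 : ∀ x : X, ∃ B ∈ π, x.1 ∈ B := fun x => mem_cov.mp (h3 x.2)
    choose f hf1 hf2 using h5
    rw [mem_image]
    refine ⟨f, ?_, ?_⟩
    · rw [Fintype.mem_piFinset]
      intro x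
      exact (h2 _ (hf1 x)).1
    · ext B
      simp only [mem_image, mem_univ, true_and]
      constructor
      · rintro ⟨x, rfl⟩; exact hf1 x
      · intro hB
        obtain ⟨x, hx, hx'⟩ := Finset.not_disjoint_iff.mp (h2 B hB).2
        refine ⟨⟨x, hx'⟩, ?_⟩
        by_contra hne
        exact Finset.disjoint_left.mp (h4 _ (hf1 ⟨x, hx'⟩) B hB hne) (hf2 ⟨x, hx'⟩) hx
  refine (card_le_card h1).trans (card_image_le.trans ?_)
  rw [Fintype.card_piFinset]
  simp

/-- the binomial estimate -/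
lemma powerset_sum {ι : Type*} [DecidableEq ι] (τ : Finset ι) {r : ℕ} (hr : 1 ≤ r)
    (hτ : τ.card ≤ r) {m : ℝ} (hm : 0 < m) (j : ℕ) :
    ∑ δ ∈ τ.powerset.filter (fun δ => δ.Nonempty ∧ δ.card ≤ j),
      m ^ δ.card * (2 * r * m) ^ (j - δ.card) ≤ (2 * r * m) ^ j := by
  have hr0 : (0 : ℝ) < r := by exact_mod_cast hr
  have hB : (0 : ℝ) < 2 * r * m := by positivity
  have h1 : ∀ δ ∈ τ.powerset.filter (fun δ => δ.Nonempty ∧ δ.card ≤ j),
      m ^ δ.card * (2 * r * m) ^ (j - δ.card) =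
        (2 * r * m) ^ j * (1 / (2 * r)) ^ δ.card := by
    intro δ hδ
    have hδj := (mem_filter.mp hδ).2.2
    have h2 : (2 * r * m) ^ j = (2 * r * m) ^ (j - δ.card) * (2 * r * m) ^ δ.card := by
      rw [← pow_add]; congr 1; omega
    have h3 : 2 * r * m * (1 / (2 * r)) = m := by field_simp
    rw [h2, mul_assoc ((2 * r * m) ^ (j - δ.card)), ← mul_pow, h3, mul_comm]
  rw [Finset.sum_congr rfl h1, ← Finset.mul_sum]
  have h4 : ∑ δ ∈ τ.powerset.filter (fun δ => δ.Nonempty ∧ δ.card ≤ j),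
      (1 / (2 * r) : ℝ) ^ δ.card ≤ 1 := by
    have h5 : ∑ δ ∈ τ.powerset, (1 / (2 * r) : ℝ) ^ δ.card = (1 / (2 * r) + 1) ^ τ.card := by
      rw [← Finset.sum_pow_mul_eq_add_pow]
      simp
    have h6 : (1 / (2 * r) + 1 : ℝ) ^ τ.card ≤ 2 := by
      have h7 : (1 / (2 * r) + 1 : ℝ) ≤ Real.exp (1 / (2 * r)) := Real.add_one_le_exp _
      calc (1 / (2 * r) + 1 : ℝ) ^ τ.card ≤ (1 / (2 * r) + 1 : ℝ) ^ r := by
            apply pow_le_pow_right₀ _ hτ
            have : (0 : ℝ) ≤ 1 / (2 * r) := by positivity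
            linarith
        _ ≤ (Real.exp (1 / (2 * r))) ^ r := pow_le_pow_left₀ (by positivity) h7 r
        _ = Real.exp (1 / 2) := by
            rw [← Real.exp_nat_mul]; congr 1; field_simp
        _ ≤ 2 := by
            have h8 : Real.exp (1 / 2) ^ 2 = Real.exp 1 := by
              rw [← Real.exp_nat_mul]; norm_num
            have h9 := Real.exp_one_lt_d9
            have h10 := Real.exp_pos (1 / 2 : ℝ)
            nlinarith
    have h7 : ∑ δ ∈ τ.powerset.filter (fun δ => δ.Nonempty ∧ δ.card ≤ j),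
        (1 / (2 * r) : ℝ) ^ δ.card + 1 ≤ ∑ δ ∈ τ.powerset, (1 / (2 * r) : ℝ) ^ δ.card := by
      have h8 : insert ∅ (τ.powerset.filter (fun δ => δ.Nonempty ∧ δ.card ≤ j)) ⊆
          τ.powerset := by
        intro δ hδ
        rw [mem_insert] at hδ
        rcases hδ with rfl | hδ
        · simp
        · exact (mem_filter.mp hδ).1
      have h9 := Finset.sum_le_sum_of_subset_of_nonneg h8
        (f := fun δ => (1 / (2 * r) : ℝ) ^ δ.card) (fun _ _ _ => by positivity)
      rw [Finset.sum_insert (by simp)] at h9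
      simp only [card_empty, pow_zero] at h9
      linarith
    linarith
  calc (2 * r * m) ^ j * _ ≤ (2 * r * m) ^ j * 1 :=
        mul_le_mul_of_nonneg_left h4 (by positivity)
    _ = _ := mul_one _

open Classical in
/-- few partial matchings have a given code -/
lemma card_enc {Tm : PS n → Prop} {rk : PS n → ℕ}
    (hrk : Function.Injective rk) {ρ0 : PS n} {r : ℕ} (hr : 1 ≤ r)
    (hTm : ∀ t, Tm t → ρ0 ⊆ t ∧ t.card ≤ ρ0.card + r) (b : ℕ) (hb : b ≤ n) :
    ∀ (j : ℕ) (ρ'' : PS n),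
    ((univ.filter (fun ρ : PS n => IsPP ρ ∧ ρ0 ⊆ ρ ∧ b ≤ ρ.card ∧
      Enc Tm rk j ρ ρ'')).card : ℝ) ≤ (2 * r * (((2 * n + 1 - 2 * b : ℕ) : ℝ) ^ 2) ^ 2) ^ j := by
  have hn' : (1 : ℝ) ≤ ((2 * n + 1 - 2 * b : ℕ) : ℝ) := by
    have : 1 ≤ 2 * n + 1 - 2 * b := by omega
    exact_mod_cast this
  set m : ℝ := (((2 * n + 1 - 2 * b : ℕ) : ℝ) ^ 2) ^ 2 with hm
  have hm1 : 1 ≤ m := one_le_pow₀ (one_le_pow₀ hn')
  intro j
  induction j using Nat.strong_induction_on with
  | _ j ih =>
    intro ρ''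
    by_cases hj : j = 0
    · subst hj
      rw [pow_zero]
      have h1 : (univ.filter (fun ρ : PS n => IsPP ρ ∧ ρ0 ⊆ ρ ∧ b ≤ ρ.card ∧
          Enc Tm rk 0 ρ ρ'')) ⊆ {ρ''} := by
        intro ρ hρ
        simp only [mem_filter, mem_univ, true_and] at hρ
        rw [mem_singleton]
        obtain ⟨h1, _, _, h4⟩ := hρ
        obtain ⟨g1, g2, g3⟩ := h4.props h1
        exact eq_of_subset_of_card_le g1 (by omega)
      have h2 := card_le_card h1
      rw [card_singleton] at h2
      exact_mod_cast h2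
    · by_cases hne : (univ.filter (fun ρ : PS n => IsPP ρ ∧ ρ0 ⊆ ρ ∧ b ≤ ρ.card ∧
          Enc Tm rk j ρ ρ'')) = ∅
      · rw [hne]
        simp only [card_empty, Nat.cast_zero]
        positivity
      · obtain ⟨ρa, hρa⟩ := Finset.nonempty_iff_ne_empty.mpr hne
        simp only [mem_filter, mem_univ, true_and] at hρa
        obtain ⟨a1, a2, a3, a4⟩ := hρa
        obtain ⟨a5, a6, a7⟩ := a4.props a1
        obtain ⟨t, _, _, hfirst, _⟩ := a4.decode hj a1
        set τ := t \ ρ0 with hτ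
        have hτr : τ.card ≤ r := by
          obtain ⟨c1, c2⟩ := hTm t hfirst.1
          have : τ.card + ρ0.card = t.card := card_sdiff_add_card_eq_card c1
          omega
        -- the candidates for covers
        let PC : PS n → Finset (PS n) := fun δ => univ.filter (fun π : PS n =>
          (∀ B ∈ π, B ∈ powersetCard 2 (univ \ cov (ρ'' \ δ)) ∧ ¬ Disjoint B (cov δ)) ∧
          cov δ ⊆ cov π ∧ ∀ B ∈ π, ∀ C ∈ π, B ≠ C → Disjoint B C)
        have hPC : ∀ δ ∈ τ.powerset.filter (fun δ => δ.Nonempty ∧ δ.card ≤ j),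
            δ ⊆ ρ'' → ((PC δ).card : ℝ) ≤ m ^ δ.card := by
          intro δ hδ hδρ
          have hδj := (mem_filter.mp hδ).2.2
          have h1 := card_covers (cov δ) (powersetCard 2 (univ \ cov (ρ'' \ δ))) (PC δ) (by
            intro π hπ
            simpa only [PC, mem_filter, mem_univ, true_and] using hπ)
          have h2 : (cov δ).card = 2 * δ.card := card_cov (a6.mono hδρ)
          have h3 : (powersetCard 2 (univ \ cov (ρ'' \ δ))).card ≤ (2 * n + 1 - 2 * b) ^ 2 := by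
            rw [card_powersetCard]
            refine (Nat.choose_le_pow _ _).trans (Nat.pow_le_pow_left ?_ 2)
            have h4 := card_free (a6.mono (sdiff_subset : ρ'' \ δ ⊆ ρ''))
            have h5 : (ρ'' \ δ).card + δ.card = ρ''.card := card_sdiff_add_card_eq_card hδρ
            have h6 : 2 * b ≤ 2 * (ρ'' \ δ).card := Nat.mul_le_mul_left 2 (by omega)
            omega
          have h4 : (PC δ).card ≤ ((2 * n + 1 - 2 * b) ^ 2) ^ (2 * δ.card) := by
            refine h1.trans ?_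
            rw [h2]
            exact Nat.pow_le_pow_left h3 _
          have h5 : ((PC δ).card : ℝ) ≤ ((((2 * n + 1 - 2 * b) ^ 2) ^ (2 * δ.card) : ℕ) : ℝ) := by
            exact_mod_cast h4
          refine h5.trans (le_of_eq ?_)
          rw [hm, ← pow_mul]
          push_cast
          ring
        have hsub : (univ.filter (fun ρ : PS n => IsPP ρ ∧ ρ0 ⊆ ρ ∧ b ≤ ρ.card ∧
            Enc Tm rk j ρ ρ'')) ⊆
            (τ.powerset.filter (fun δ => δ.Nonempty ∧ δ.card ≤ j)).biUnion (fun δ =>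
              if δ ⊆ ρ'' then (PC δ).biUnion (fun π =>
                (univ.filter (fun ρ : PS n => IsPP ρ ∧ ρ0 ⊆ ρ ∧ b ≤ ρ.card ∧
                  Enc Tm rk (j - δ.card) ρ ((ρ'' \ δ) ∪ π))).image (fun ρ1 => ρ1 \ π))
              else ∅) := by
          intro ρ hρ
          simp only [mem_filter, mem_univ, true_and] at hρ
          obtain ⟨h1, h2, h3, h4⟩ := hρ
          obtain ⟨t', δ, π, g1, g2, g3, g4, g5, g6, g7, g8, g9, g10, g11, g12⟩ :=
            h4.decode hj h1
          have htt : t' = t := hrk (le_antisymm (g1.2.2 t hfirst.1 hfirst.2.1)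
            (hfirst.2.2 t' g1.1 g1.2.1))
          subst htt
          rw [mem_biUnion]
          refine ⟨δ, ?_, ?_⟩
          · rw [mem_filter, mem_powerset]
            refine ⟨?_, g4, g5⟩
            intro B hB
            refine mem_sdiff.mpr ⟨g2 hB, fun h0 => ?_⟩
            exact Finset.disjoint_left.mp g3 hB (h2 h0)
          · rw [if_pos g6, mem_biUnion]
            refine ⟨π, ?_, ?_⟩
            · simp only [PC, mem_filter, mem_univ, true_and, mem_powersetCard]
              refine ⟨fun B hB => ⟨⟨(g11 B hB).2, (g11 B hB).1⟩, g9 B hB⟩, g10, ?_⟩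
              intro B hB C hC hne
              exact g7.2 B (mem_union_right _ hB) C (mem_union_right _ hC) hne
            · rw [mem_image]
              refine ⟨ρ ∪ π, ?_, ?_⟩
              · simp only [mem_filter, mem_univ, true_and]
                refine ⟨g7, h2.trans subset_union_left, ?_, g12⟩
                exact h3.trans (card_le_card subset_union_left)
              · rw [union_sdiff_right]
                exact sdiff_eq_self_of_disjoint g8
        have hcard : ((univ.filter (fun ρ : PS n => IsPP ρ ∧ ρ0 ⊆ ρ ∧ b ≤ ρ.card ∧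
            Enc Tm rk j ρ ρ'')).card : ℝ) ≤
            ∑ δ ∈ τ.powerset.filter (fun δ => δ.Nonempty ∧ δ.card ≤ j),
              m ^ δ.card * (2 * r * m) ^ (j - δ.card) := by
          have h1 := (card_le_card hsub).trans card_biUnion_le
          have h2 : ((univ.filter (fun ρ : PS n => IsPP ρ ∧ ρ0 ⊆ ρ ∧ b ≤ ρ.card ∧
            Enc Tm rk j ρ ρ'')).card : ℝ) ≤
            ((∑ δ ∈ τ.powerset.filter (fun δ => δ.Nonempty ∧ δ.card ≤ j), (if δ ⊆ ρ'' then
              (PC δ).biUnion (fun π =>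
                (univ.filter (fun ρ : PS n => IsPP ρ ∧ ρ0 ⊆ ρ ∧ b ≤ ρ.card ∧
                  Enc Tm rk (j - δ.card) ρ ((ρ'' \ δ) ∪ π))).image (fun ρ1 => ρ1 \ π))
              else ∅).card : ℕ) : ℝ) := by exact_mod_cast h1
          refine h2.trans ?_
          push_cast
          refine Finset.sum_le_sum (fun δ hδ => ?_)
          have hδ1 := (mem_filter.mp hδ).2.1
          have hδj := (mem_filter.mp hδ).2.2
          by_cases hδρ : δ ⊆ ρ''
          · rw [if_pos hδρ]
            have h3 : (((PC δ).biUnion (fun π =>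
                (univ.filter (fun ρ : PS n => IsPP ρ ∧ ρ0 ⊆ ρ ∧ b ≤ ρ.card ∧
                  Enc Tm rk (j - δ.card) ρ ((ρ'' \ δ) ∪ π))).image (fun ρ1 => ρ1 \ π))).card : ℝ)
                ≤ ∑ π ∈ PC δ, (2 * r * m) ^ (j - δ.card) := by
              refine le_trans (b := ∑ π ∈ PC δ, (((univ.filter (fun ρ : PS n => IsPP ρ ∧
                ρ0 ⊆ ρ ∧ b ≤ ρ.card ∧ Enc Tm rk (j - δ.card) ρ ((ρ'' \ δ) ∪ π))).image
                  (fun ρ1 => ρ1 \ π)).card : ℝ)) (by exact_mod_cast card_biUnion_le) ?_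
              refine Finset.sum_le_sum (fun π _ => ?_)
              refine le_trans (b := ((univ.filter (fun ρ : PS n => IsPP ρ ∧
                ρ0 ⊆ ρ ∧ b ≤ ρ.card ∧ Enc Tm rk (j - δ.card) ρ ((ρ'' \ δ) ∪ π))).card : ℝ))
                (by exact_mod_cast card_image_le) ?_
              apply ih
              have := hδ1.card_pos
              omega
            refine h3.trans ?_
            rw [Finset.sum_const, nsmul_eq_mul]
            exact mul_le_mul_of_nonneg_right (hPC δ hδ hδρ) (by positivity)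
          · rw [if_neg hδρ]
            simp only [card_empty, Nat.cast_zero]
            positivity
        exact hcard.trans (powerset_sum τ hr hτr (by linarith) j)

end count

end Pool.Agent.TH710.PHP
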