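import Pool.Agent.TH710.PHP.Main

/-!
Choice of parameters; the block substitution.
-/

set_option linter.unusedSectionVars false

namespace Pool.Agent.TH710.PHP

open Finset

/-- the numerical condition of one switching step -/
lemma num_step {n k a A : ℕ} (ha32 : 32 ≤ a) (hak : k ≤ a) (hA : a ^ 12 ≤ A) (hAn : A ≤ n) :
    n - a ≤ n ∧ n - A ≤ n - a ∧
      16 * (2 * k * ((2 * n + 1 - 2 * (n - a)) ^ 2) ^ 2 * (2 * n + 1 - 2 * (n - a)) ^ 2) ≤
        (n - a) - (n - A) := by
  have haA : a ≤ A := by
    refine le_trans ?_ hA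
    exact Nat.le_self_pow (by norm_num) a
  refine ⟨by omega, by omega, ?_⟩
  have h1 : 2 * n + 1 - 2 * (n - a) = 2 * a + 1 := by omega
  rw [h1]
  have h2 : (n - a) - (n - A) = A - a := by omega
  rw [h2]
  have h3 : 2 * a + 1 ≤ 3 * a := by omega
  have h4 : 16 * (2 * k * ((2 * a + 1) ^ 2) ^ 2 * (2 * a + 1) ^ 2) ≤ a ^ 10 := by
    calc 16 * (2 * k * ((2 * a + 1) ^ 2) ^ 2 * (2 * a + 1) ^ 2)
        = 32 * k * (2 * a + 1) ^ 6 := by ring
      _ ≤ 32 * a * (3 * a) ^ 6 :=
          Nat.mul_le_mul (Nat.mul_le_mul_left _ hak) (Nat.pow_le_pow_left h3 6)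
      _ = 23328 * a ^ 7 := by ring
      _ ≤ a ^ 3 * a ^ 7 := by
          apply Nat.mul_le_mul_right
          calc 23328 ≤ 32 ^ 3 := by norm_num
            _ ≤ a ^ 3 := Nat.pow_le_pow_left ha32 3
      _ = a ^ 10 := by ring
  have h5 : a ^ 10 + a ≤ a ^ 12 := by
    have h6 : a ≤ a ^ 10 := Nat.le_self_pow (by norm_num) a
    calc a ^ 10 + a ≤ 2 * a ^ 10 := by omega
      _ ≤ a ^ 2 * a ^ 10 := by
          apply Nat.mul_le_mul_right
          nlinarith
      _ = a ^ 12 := by ring
  omega

/-- the combinatorial core with explicit parameters -/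
theorem core (c d : ℕ) : ∃ C : ℕ, 0 < C ∧ ∀ n Y : ℕ, 1 ≤ Y → (C * Y) ^ (12 ^ d) ≤ n →
    ∀ (α : Type) (g : α → MF n), (∀ a, Atomic (g a)) → ∀ (T : ℕ) (L : Fin T → Fm α),
      (∀ i, (L i).depth ≤ d) →
      (∀ i, (∀ (k : ℕ) (σ : PS n), IsPP σ → σ.card + 1 + k * d ≤ n → ¬ W k (mf g (L i)) false σ) ∨
        Inferred c L i) →
      (∃ i f, L i = .or 0 f) → 16 ^ Y < 3 * (allSub L).card := by
  classical
  refine ⟨2 * (3 * c + 8 + d + 32), by omega, ?_⟩
  intro n Y hY hn α g hg T L hdepth hL hcontra
  by_contra hcon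
  push Not at hcon
  have hg0 : ∀ a, (g a).dep = 0 := by
    intro a
    have h := hg a
    cases hga : g a with
    | cst b => rfl
    | var e => rfl
    | neg φ => rw [hga] at h; exact h.elim
    | or t φs => rw [hga] at h; exact h.elim
  set k : ℕ := 2 * Y with hk
  set m : ℕ := (3 * c + 8 + d + 32) * k with hm
  have hm' : 2 * (3 * c + 8 + d + 32) * Y = m := by rw [hm, hk]; ring
  rw [hm'] at hn
  have hk2 : 2 ≤ k := by omega
  have hm32 : 32 ≤ m := by nlinarith
  have hmk : k ≤ m := by nlinarith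
  have hm1 : 1 ≤ m := by omega
  -- the sizes
  let Asz : ℕ → ℕ := fun h => if h = 0 then n else m ^ (12 ^ (d - h))
  have hAm : ∀ h, 1 ≤ h → m ≤ Asz h := by
    intro h hh
    simp only [Asz, if_neg (show h ≠ 0 by omega)]
    exact Nat.le_self_pow (by positivity) m
  have hAstep : ∀ h < d, Asz (h + 1) ^ 12 ≤ Asz h := by
    intro h hh
    have e1 : Asz (h + 1) = m ^ (12 ^ (d - (h + 1))) := by
      simp only [Asz, if_neg (show h + 1 ≠ 0 by omega)]
    have e2 : 12 ^ (d - (h + 1)) * 12 = 12 ^ (d - h) := by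
      rw [← pow_succ]; congr 1; omega
    rw [e1, ← pow_mul, e2]
    by_cases h0 : h = 0
    · subst h0
      simp only [Asz, if_true, Nat.sub_zero]
      exact hn
    · simp only [Asz, if_neg h0]
      exact le_rfl
  have hmn : m ≤ n := by
    refine le_trans ?_ hn
    exact Nat.le_self_pow (by positivity) m
  have hAn : ∀ h ≤ d, Asz h ≤ n := by
    intro h hh
    by_cases h0 : h = 0
    · simp only [Asz, h0, if_true]; exact le_rfl
    · simp only [Asz, if_neg h0]
      refine le_trans ?_ hn
      exact Nat.pow_le_pow_right hm1 (Nat.pow_le_pow_right (by omega) (by omega))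
  let b : ℕ → ℕ := fun h => n - Asz h
  have hb0 : b 0 = 0 := by simp [b, Asz]
  have hstep : ∀ h < d, b (h + 1) ≤ n ∧ b h ≤ b (h + 1) ∧
      16 * (2 * k * ((2 * n + 1 - 2 * b (h + 1)) ^ 2) ^ 2 * (2 * n + 1 - 2 * b (h + 1)) ^ 2) ≤
        b (h + 1) - b h := by
    intro h hh
    have hm' := hAm (h + 1) (by omega)
    exact num_step (hm32.trans hm') (hmk.trans hm') (hAstep h hh) (hAn h (by omega))
  have hfamcard : (fam g (allSub L)).card ≤ 16 ^ Y := (fam_card _).trans hcon
  obtain ⟨ρ, hρ1, hρ2, hρ3⟩ := levels (k := k) (D := Y) hY rfl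
    (fam g (allSub L)) (fam_closed hg (allSub_closed L)) hfamcard b hb0 d
    hstep d le_rfl
  have hdep := depth_allSub L hdepth
  have hG : Good g k d ρ (allSub L) := by
    refine ⟨allSub_closed L, ?_, ?_⟩
    · intro φ hφ
      exact (dep_mf hg0 φ).trans (hdep φ hφ)
    · intro φ hφ
      exact hρ3 _ (mem_fam hφ) ((dep_mf hg0 φ).trans (hdep φ hφ))
  have hfree : ρ.card + m ≤ n := by
    rw [hρ2]
    by_cases hd0 : d = 0
    · rw [hd0, hb0]
      omega
    · have h1 : Asz d = m := by
        simp only [Asz, if_neg hd0, Nat.sub_self, pow_zero, pow_one]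
      simp only [b, h1]
      omega
  have hroom : ρ.card + (3 * c + 6 + d) * k ≤ n := by
    have : (3 * c + 6 + d) * k ≤ m := Nat.mul_le_mul_right _ (by omega)
    omega
  have hno := no_bad (c := c) hG hroom (by
    intro i
    rcases hL i with h | h
    · left
      rintro ⟨σ, s1, s2, s3, s4⟩
      refine h k σ s1 ?_ s4
      have e1 : m = (3 * c + 6 + 32) * k + k * d + 2 * k := by rw [hm]; ring
      have e2 : k ≤ (3 * c + 6 + 32) * k := Nat.le_mul_of_pos_left _ (by omega)
      omega
    · exact Or.inr h)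
  obtain ⟨i, f, hi⟩ := hcontra
  apply hno i
  refine ⟨ρ, hρ1, subset_rfl, by omega, ?_⟩
  rw [hi, W_mf_or_false]
  intro _ _ _ _ j
  exact j.elim0

/-! ### the block substitution -/

/-- `B` blocks of `κ` holes and `κ + 1` pigeons; all blocks are identified, the other pigeons and
holes are matched -/
def gmap (m n κ B : ℕ) (hκ : 1 ≤ κ) (a : Fin m × Fin n) : MF κ :=
  if a.1.val < B * (κ + 1) then
    if a.2.val < B * κ then
      if a.1.val / (κ + 1) = a.2.val / κ then
        .var (ed ⟨a.1.val % (κ + 1), Nat.mod_lt _ (by omega)⟩ ⟨a.2.val % κ, Nat.mod_lt _ (by omega)⟩)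
      else .cst false
    else .cst false
  else if a.2.val < B * κ then .cst false
  else .cst (decide (a.1.val - B * (κ + 1) = a.2.val - B * κ))

lemma gmap_atomic (m n κ B : ℕ) (hκ : 1 ≤ κ) (a : Fin m × Fin n) :
    Atomic (gmap m n κ B hκ a) := by
  unfold gmap
  split_ifs <;> trivial

lemma clause_ok {m n κ B k d : ℕ} (hκ : 1 ≤ κ) (hB : B * κ ≤ n) (hm : m ≤ n + B)
    {φ : Fm (Fin m × Fin n)} (h : IsClause φ) (hdep : φ.depth ≤ d) {σ : PS κ} (hσ : IsPP σ)
    (hroom : σ.card + 1 + k * d ≤ κ) : ¬ W k (mf (gmap m n κ B hκ) φ) false σ := by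
  classical
  have hdep' : (mf (gmap m n κ B hκ) φ).dep ≤ d := by
    refine (dep_mf ?_ φ).trans hdep
    intro a
    unfold gmap
    split_ifs <;> rfl
  obtain ⟨t, φs, rfl, h | h⟩ := h
  · obtain ⟨u, hu⟩ := h
    rw [W_mf_or_false]
    intro hW
    have hkd : k * (mf (gmap m n κ B hκ) (.or t φs)).dep ≤ k * d := Nat.mul_le_mul_left k hdep'
    by_cases hub : u.val < B * (κ + 1)
    · -- a pigeon in a block
      set i : Fin (κ + 1) := ⟨u.val % (κ + 1), Nat.mod_lt _ (by omega)⟩ with hi
      obtain ⟨y, h1, h2, h3, h4⟩ := exists_cover {(Sum.inl i : V κ)} σ hσ (by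
        rw [card_singleton]; omega)
      rw [card_singleton] at h4
      obtain ⟨D, hD, hiD⟩ := mem_cov.mp (h3 (mem_singleton_self _))
      obtain ⟨i', j, rfl⟩ := h2.1 D hD
      have hii : i = i' := by
        rw [mem_ed] at hiD
        simpa using hiD
      subst hii
      have hb : u.val / (κ + 1) < B := by
        rw [Nat.div_lt_iff_lt_mul (by omega)]
        exact hub
      have hw : u.val / (κ + 1) * κ + j.val < B * κ := by
        calc u.val / (κ + 1) * κ + j.val < u.val / (κ + 1) * κ + κ := by omega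
          _ = (u.val / (κ + 1) + 1) * κ := by ring
          _ ≤ B * κ := Nat.mul_le_mul_right _ hb
      let w : Fin n := ⟨u.val / (κ + 1) * κ + j.val, by omega⟩
      obtain ⟨l, hl⟩ := hu w
      refine hW y h2 h1 (by omega) l ?_
      rw [hl]
      have hg : gmap m n κ B hκ (u, w) = .var (ed i j) := by
        unfold gmap
        have hdiv : w.val / κ = u.val / (κ + 1) := by
          show (u.val / (κ + 1) * κ + j.val) / κ = _
          rw [mul_comm, Nat.mul_add_div (by omega), Nat.div_eq_of_lt j.2, add_zero]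
        have hmod : w.val % κ = j.val := by
          show (u.val / (κ + 1) * κ + j.val) % κ = _
          rw [mul_comm, Nat.mul_add_mod, Nat.mod_eq_of_lt j.2]
        rw [if_pos hub, if_pos hw, if_pos hdiv.symm]
        congr 2
        exact Fin.ext hmod
      simp only [mf, hg, W, if_true]
      exact hD
    · -- a pigeon outside
      have hv : B * κ + (u.val - B * (κ + 1)) < n := by
        have := u.2
        have e : B * (κ + 1) = B * κ + B := by ring
        omega
      let w : Fin n := ⟨B * κ + (u.val - B * (κ + 1)), hv⟩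
      obtain ⟨l, hl⟩ := hu w
      refine hW σ hσ subset_rfl (by omega) l ?_
      rw [hl]
      have hg : gmap m n κ B hκ (u, w) = .cst true := by
        unfold gmap
        have h1 : ¬ (w.val < B * κ) := by
          show ¬ (B * κ + (u.val - B * (κ + 1)) < B * κ)
          omega
        have h2 : u.val - B * (κ + 1) = w.val - B * κ := by
          show _ = B * κ + (u.val - B * (κ + 1)) - B * κ
          omega
        rw [if_neg hub, if_neg h1, decide_eq_true h2]
      simp only [mf, hg, W]
  · obtain ⟨u, u', w, huu, ⟨l, hl⟩, l', hl'⟩ := h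
    rw [W_mf_or_false]
    intro hW
    have hkd : k * (mf (gmap m n κ B hκ) (.or t φs)).dep ≤ k * d := Nat.mul_le_mul_left k hdep'
    -- it suffices to make one of the variables false
    have key : ∀ y : PS κ, IsPP y → σ ⊆ y → y.card ≤ σ.card + 1 →
        (W k (gmap m n κ B hκ (u, w)) false y ∨ W k (gmap m n κ B hκ (u', w)) false y) →
        False := by
      intro y h1 h2 h3 h4
      rcases h4 with h4 | h4
      · refine hW y h1 h2 (by omega) l ?_
        rw [hl]
        exact h4
      · refine hW y h1 h2 (by omega) l' ?_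
        rw [hl']
        exact h4
    have huv : u.val ≠ u'.val := fun h => huu (Fin.ext h)
    by_cases hwb : w.val < B * κ
    · by_cases hub : u.val < B * (κ + 1)
      · by_cases hub' : u'.val < B * (κ + 1)
        · by_cases hq : u.val / (κ + 1) = w.val / κ
          · by_cases hq' : u'.val / (κ + 1) = w.val / κ
            · have hmod : u.val % (κ + 1) ≠ u'.val % (κ + 1) := by
                intro hmm
                apply huv
                rw [← Nat.div_add_mod u.val (κ + 1), ← Nat.div_add_mod u'.val (κ + 1), hq, hq',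
                  hmm]
              set j : Fin κ := ⟨w.val % κ, Nat.mod_lt _ (by omega)⟩ with hj
              set i : Fin (κ + 1) := ⟨u.val % (κ + 1), Nat.mod_lt _ (by omega)⟩ with hi
              set i' : Fin (κ + 1) := ⟨u'.val % (κ + 1), Nat.mod_lt _ (by omega)⟩ with hi'
              have hg : gmap m n κ B hκ (u, w) = .var (ed i j) := by
                unfold gmap
                rw [if_pos hub, if_pos hwb, if_pos hq]
              have hg' : gmap m n κ B hκ (u', w) = .var (ed i' j) := by
                unfold gmap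
                rw [if_pos hub', if_pos hwb, if_pos hq']
              have hii : i ≠ i' := by
                intro h
                exact hmod (congrArg Fin.val h)
              obtain ⟨y, h1, h2, h3, h4⟩ := exists_cover {(Sum.inr j : V κ)} σ hσ (by
                rw [card_singleton]; omega)
              rw [card_singleton] at h4
              obtain ⟨D, hD, hjD⟩ := mem_cov.mp (h3 (mem_singleton_self _))
              obtain ⟨i'', j', rfl⟩ := h2.1 D hD
              have hjj : j = j' := by
                rw [mem_ed] at hjD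
                simpa using hjD
              subst hjj
              have hfalse : ∀ x : Fin (κ + 1), x ≠ i'' → W k (.var (ed x j)) false y := by
                intro x hx
                simp only [W, Bool.false_eq_true, if_false]
                refine ⟨fun hmem => hx ?_, Or.inr ?_⟩
                · have heq := h2.eq_of_mem hmem hD (mem_ed.mpr (Or.inr rfl)) hjD
                  have h5 : (Sum.inl x : V κ) ∈ ed i'' j := by
                    rw [← heq]; exact mem_ed.mpr (Or.inl rfl)
                  rw [mem_ed] at h5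
                  simpa using h5
                · rw [Finset.not_disjoint_iff]
                  exact ⟨Sum.inr j, mem_ed.mpr (Or.inr rfl), h3 (mem_singleton_self _)⟩
              apply key y h2 h1 h4
              by_cases hx : i = i''
              · right
                rw [hg']
                exact hfalse i' (fun h => hii (hx.trans h.symm))
              · left
                rw [hg]
                exact hfalse i hx
            · apply key σ hσ subset_rfl (by omega)
              right
              unfold gmap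
              rw [if_pos hub', if_pos hwb, if_neg hq']
              rfl
          · apply key σ hσ subset_rfl (by omega)
            left
            unfold gmap
            rw [if_pos hub, if_pos hwb, if_neg hq]
            rfl
        · apply key σ hσ subset_rfl (by omega)
          right
          unfold gmap
          rw [if_neg hub', if_pos hwb]
          rfl
      · apply key σ hσ subset_rfl (by omega)
        left
        unfold gmap
        rw [if_neg hub, if_pos hwb]
        rfl
    · by_cases hub : u.val < B * (κ + 1)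
      · apply key σ hσ subset_rfl (by omega)
        left
        unfold gmap
        rw [if_pos hub, if_neg hwb]
        rfl
      · by_cases hub' : u'.val < B * (κ + 1)
        · apply key σ hσ subset_rfl (by omega)
          right
          unfold gmap
          rw [if_pos hub', if_neg hwb]
          rfl
        · apply key σ hσ subset_rfl (by omega)
          by_cases he : u.val - B * (κ + 1) = w.val - B * κ
          · right
            unfold gmap
            rw [if_neg hub', if_neg hwb]
            have : ¬ (u'.val - B * (κ + 1) = w.val - B * κ) := by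
              intro h
              apply huv
              omega
            rw [decide_eq_false this]
            rfl
          · left
            unfold gmap
            rw [if_neg hub, if_neg hwb, decide_eq_false he]
            rfl

/-- lower bound with explicit parameters -/
theorem lower (c d : ℕ) : ∃ C : ℕ, 0 < C ∧ ∀ m n κ B Y : ℕ, 1 ≤ Y → B * κ ≤ n → m ≤ n + B →
    (C * Y) ^ (12 ^ d) ≤ κ → ∀ (A : Fm (Fin m × Fin n) → Prop), (∀ φ, A φ → φ.depth ≤ d) →
    ∀ R : Refutation c A, 16 ^ Y < 3 * R.size := by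
  obtain ⟨C, hC, h⟩ := core c d
  refine ⟨C, hC, ?_⟩
  intro m n κ B Y hY hB hm hκ A hA R
  have hκ1 : 1 ≤ κ := by
    refine le_trans ?_ hκ
    exact Nat.one_le_pow _ _ (Nat.mul_pos hC hY)
  have h1 := h κ Y hY hκ (Fin m × Fin n) (gmap m n κ B hκ1) (gmap_atomic m n κ B hκ1) R.len
    R.line (fun i => hA _ (R.mem i)) (by
      intro i
      rcases R.sound i with h | h
      · left
        intro k σ hσ hr
        exact clause_ok hκ1 hB hm h (hA _ (R.mem i)) hσ hr
      · exact Or.inr h) R.contra
  have h2 := card_allSub R.line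
  have h3 : 3 * (allSub R.line).card ≤ 3 * R.size := Nat.mul_le_mul_left 3 h2
  omega

lemma lit_alt {α : Type} {φ : Fm α} (h : IsLit φ) (s : Bool) : φ.alt s = 0 := by
  obtain ⟨a, rfl | rfl⟩ := h
  · simp [Fm.alt]
  · simp [Fm.alt]

lemma narrow_alt {α : Type} {w : ℕ} {φ : Fm α} (h : IsNarrow w φ) :
    φ.alt true = 0 ∧ φ.alt false ≤ 1 := by
  obtain ⟨t, φs, _, rfl, h⟩ := h
  have h1 : univ.sup (fun j => (φs j).alt true) = 0 := by
    rw [← Nat.le_zero]
    exact Finset.sup_le (fun j _ => by rw [lit_alt (h j)])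
  constructor
  · simp only [Fm.alt]
    exact h1
  · simp only [Fm.alt, h1]
    exact le_rfl

lemma rline_depth {α : Type} {w : ℕ} {φ : Fm α} (h : IsRLine w φ) : φ.depth ≤ 2 := by
  obtain ⟨t, φs, rfl, h⟩ := h
  have h1 : univ.sup (fun j => (φs j).alt true) ≤ 1 := by
    refine Finset.sup_le (fun j _ => ?_)
    rcases h j with h | h | ⟨ψ, h, h'⟩
    · rw [lit_alt h]; omega
    · rw [(narrow_alt h).1]; omega
    · rw [h']
      simp only [Fm.alt, Bool.not_true]
      exact (narrow_alt h).2
  simp only [Fm.depth, Fm.alt]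
  omega

open Filter Topology in
/-- numerical part -/
theorem lower_exp (c d : ℕ) (δ : ℝ) (hδ : 0 < δ) : ∃ ε : ℝ, 0 < ε ∧ ∃ n₀ : ℕ, ∀ n m : ℕ, n₀ ≤ n →
    (m : ℝ) ≤ n + (n : ℝ) ^ (1 - δ) →
    ∀ (A : Fm (Fin m × Fin n) → Prop), (∀ φ, A φ → φ.depth ≤ d) →
    ∀ R : Refutation c A, Real.exp ((n : ℝ) ^ ε) ≤ R.size := by
  obtain ⟨C, hC, hlow⟩ := lower c d
  set E : ℕ := 12 ^ d with hE
  have hE1 : 1 ≤ E := Nat.one_le_pow _ _ (by norm_num)
  have hEr : (1 : ℝ) ≤ E := by exact_mod_cast hE1
  set δ' : ℝ := min δ 1 with hδ'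
  have hδ0 : 0 < δ' := lt_min hδ one_pos
  have hδ1 : δ' ≤ 1 := min_le_right _ _
  have hδδ : δ' ≤ δ := min_le_left _ _
  set ε : ℝ := δ' / (4 * E) with hε
  have hε0 : 0 < ε := by positivity
  have htend : Tendsto (fun n : ℕ => ((n : ℕ) : ℝ) ^ (δ' / 4)) atTop atTop :=
    (tendsto_rpow_atTop (by positivity)).comp tendsto_natCast_atTop_atTop
  obtain ⟨n₀, hn₀⟩ := eventually_atTop.mp (htend.eventually_ge_atTop (((3 * C : ℕ) : ℝ) ^ E + 4))
  refine ⟨ε, hε0, max n₀ 1, ?_⟩
  intro n m hn hm A hA R
  have hn1 : 1 ≤ n := (le_max_right _ _).trans hn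
  have hn1r : (1 : ℝ) ≤ n := by exact_mod_cast hn1
  have hn0r : (0 : ℝ) < n := by linarith
  set x : ℝ := (n : ℝ) ^ (δ' / 4) with hx
  have hxbig : ((3 * C : ℕ) : ℝ) ^ E + 4 ≤ x := hn₀ n ((le_max_left _ _).trans hn)
  have hCE : (0 : ℝ) ≤ ((3 * C : ℕ) : ℝ) ^ E := by positivity
  have hx4 : 4 ≤ x := by linarith
  have hxpow : x ^ 4 = (n : ℝ) ^ δ' := by
    rw [hx, ← Real.rpow_natCast, ← Real.rpow_mul hn0r.le]
    congr 1
    push_cast
    ring
  -- the blocks
  set z : ℝ := (n : ℝ) ^ (1 - δ') with hz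
  have hz1 : 1 ≤ z := Real.one_le_rpow hn1r (by linarith)
  set B : ℕ := ⌈z⌉₊ with hB
  have hBz : z ≤ B := Nat.le_ceil z
  have hBz2 : (B : ℝ) ≤ 2 * z := by
    have := (Nat.ceil_lt_add_one (by linarith : 0 ≤ z)).le
    linarith
  have hB1 : 1 ≤ B := by
    have : (1 : ℝ) ≤ B := hz1.trans hBz
    exact_mod_cast this
  set κ : ℕ := n / B with hκ
  have hBκ : B * κ ≤ n := Nat.mul_div_le n B
  have hmB : m ≤ n + B := by
    have h1 : (n : ℝ) ^ (1 - δ) ≤ z := Real.rpow_le_rpow_of_exponent_le hn1r (by linarith)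
    have h2 : (m : ℝ) ≤ ((n + B : ℕ) : ℝ) := by push_cast; linarith
    exact_mod_cast h2
  have hκbig : x ^ 4 / 2 - 1 ≤ κ := by
    have h1 : n < B * (κ + 1) := by
      have := Nat.lt_mul_div_succ n (show 0 < B by omega)
      exact this
    have h2 : (n : ℝ) < B * (κ + 1) := by exact_mod_cast h1
    have h3 : x ^ 4 * z = n := by
      rw [hxpow, hz, ← Real.rpow_add hn0r]
      simp
    have h4 : x ^ 4 * z < 2 * z * (κ + 1) := by
      rw [h3]
      refine h2.trans_le ?_
      have : (0 : ℝ) ≤ (κ : ℝ) + 1 := by positivity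
      exact mul_le_mul_of_nonneg_right hBz2 this
    have h5 : x ^ 4 < 2 * (κ + 1) := by
      have h6 : x ^ 4 * z < (2 * (κ + 1)) * z := by linarith
      exact lt_of_mul_lt_mul_right h6 (by linarith)
    linarith
  -- the parameter
  set Y : ℕ := ⌈(n : ℝ) ^ ε⌉₊ + 1 with hY
  have hnε : 1 ≤ (n : ℝ) ^ ε := Real.one_le_rpow hn1r hε0.le
  have hY1 : (n : ℝ) ^ ε + 1 ≤ Y := by
    rw [hY]; push_cast
    have := Nat.le_ceil ((n : ℝ) ^ ε)
    linarith
  have hY3 : (Y : ℝ) ≤ 3 * (n : ℝ) ^ ε := by
    rw [hY]; push_cast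
    have := (Nat.ceil_lt_add_one (by linarith : 0 ≤ (n : ℝ) ^ ε)).le
    linarith
  have hCY : (C * Y) ^ E ≤ κ := by
    have h1 : (((C * Y) ^ E : ℕ) : ℝ) ≤ (κ : ℝ) := by
      refine le_trans ?_ hκbig
      push_cast
      have h2 : ((C : ℝ) * Y) ^ E ≤ (((3 * C : ℕ) : ℝ) * (n : ℝ) ^ ε) ^ E := by
        apply pow_le_pow_left₀ (by positivity)
        push_cast
        have : (0 : ℝ) ≤ C := Nat.cast_nonneg _
        nlinarith
      refine h2.trans ?_
      rw [mul_pow]
      have h3 : ((n : ℝ) ^ ε) ^ E = x := by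
        rw [← Real.rpow_natCast, ← Real.rpow_mul hn0r.le, hx, hε]
        congr 1
        field_simp
      rw [h3]
      have h4 : ((3 * C : ℕ) : ℝ) ^ E ≤ x := by linarith
      have h5 : ((3 * C : ℕ) : ℝ) ^ E * x ≤ x * x :=
        mul_le_mul_of_nonneg_right h4 (by linarith)
      refine h5.trans ?_
      nlinarith [mul_self_nonneg (x * x - 4)]
    exact_mod_cast h1
  have hfin := hlow m n κ B Y (by omega) hBκ hmB hCY A hA R
  have hfin' : (16 : ℝ) ^ Y < 3 * R.size := by exact_mod_cast hfin
  have h16 : Real.exp ((n : ℝ) ^ ε) * 3 ≤ (16 : ℝ) ^ Y := by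
    have h1 : Real.exp ((n : ℝ) ^ ε) ≤ (3 : ℝ) ^ Y := by
      have h2 : Real.exp (Y : ℝ) = Real.exp 1 ^ Y := by
        rw [← Real.exp_nat_mul, mul_one]
      calc Real.exp ((n : ℝ) ^ ε) ≤ Real.exp (Y : ℝ) := Real.exp_le_exp.mpr (by linarith)
        _ = Real.exp 1 ^ Y := h2
        _ ≤ 3 ^ Y := by
            apply pow_le_pow_left₀ (Real.exp_pos 1).le
            have := Real.exp_one_lt_d9
            linarith
    have h3 : (3 : ℝ) ≤ 3 ^ Y := by
      calc (3 : ℝ) = 3 ^ 1 := (pow_one _).symm
        _ ≤ 3 ^ Y := pow_le_pow_right₀ (by norm_num) (by omega)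
    calc Real.exp ((n : ℝ) ^ ε) * 3 ≤ 3 ^ Y * 3 ^ Y :=
          mul_le_mul h1 h3 (by norm_num) (by positivity)
      _ = 9 ^ Y := by rw [← mul_pow]; norm_num
      _ ≤ 16 ^ Y := pow_le_pow_left₀ (by norm_num) (by norm_num) _
  linarith

open Filter Topology in
/-- quasi-polynomial bounds are eventually below the exponential bound -/
lemma quasi_lt (C ε : ℝ) (hε : 0 < ε) : ∃ n₀ : ℕ, ∀ n : ℕ, n₀ ≤ n →
    (n : ℝ) ^ (C * Real.log n) < Real.exp ((n : ℝ) ^ ε) := by
  have h1 : (fun x : ℝ => Real.log x) =o[atTop] fun x : ℝ => x ^ (ε / 2) :=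
    isLittleO_log_rpow_atTop (by positivity)
  have h2 := h1.comp_tendsto tendsto_natCast_atTop_atTop
  have hc : 0 < 1 / (|C| + 1) := by positivity
  have h3 := (Asymptotics.isLittleO_iff.mp h2) hc
  obtain ⟨n₀, hn₀⟩ := eventually_atTop.mp h3
  refine ⟨max n₀ 2, fun n hn => ?_⟩
  have hn1 := hn₀ n ((le_max_left _ _).trans hn)
  have hn2 : 2 ≤ n := (le_max_right _ _).trans hn
  have hn2r : (2 : ℝ) ≤ n := by exact_mod_cast hn2
  have hn0 : (0 : ℝ) < n := by linarith
  have hlog : 0 < Real.log n := Real.log_pos (by linarith)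
  simp only [Function.comp_apply, Real.norm_eq_abs] at hn1
  rw [abs_of_pos hlog, abs_of_nonneg (Real.rpow_nonneg hn0.le _)] at hn1
  rw [Real.rpow_def_of_pos hn0, Real.exp_lt_exp]
  have h4 : ((n : ℝ) ^ (ε / 2)) ^ 2 = (n : ℝ) ^ ε := by
    rw [← Real.rpow_natCast, ← Real.rpow_mul hn0.le]
    congr 1
    push_cast
    ring
  set z := (n : ℝ) ^ (ε / 2) with hz
  have hz0 : 0 < z := Real.rpow_pos_of_pos hn0 _
  have h5 : (|C| + 1) * Real.log n ≤ z := by
    have : (|C| + 1) * Real.log n ≤ (|C| + 1) * (1 / (|C| + 1) * z) :=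
      mul_le_mul_of_nonneg_left hn1 (by positivity)
    rwa [← mul_assoc, mul_one_div_cancel (by positivity), one_mul] at this
  have h6 : Real.log n ≤ z := by nlinarith [abs_nonneg C]
  rw [← h4]
  calc Real.log n * (C * Real.log n) ≤ Real.log n * (|C| * Real.log n) := by
        apply mul_le_mul_of_nonneg_left _ hlog.le
        exact mul_le_mul_of_nonneg_right (le_abs_self C) hlog.le
    _ < Real.log n * ((|C| + 1) * Real.log n) := by
        apply mul_lt_mul_of_pos_left _ hlog
        nlinarith
    _ ≤ z * z := mul_le_mul h6 h5 (by positivity) hz0.le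
    _ = z ^ 2 := by ring

end Pool.Agent.TH710.PHP
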