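import Pool.Agent.TH710.PHP.PM

/-!
Forcing of formulas by partial matchings.
-/

set_option linter.unusedSectionVars false

namespace Pool.Agent.TH710.PHP

open Finset

/-- formulas with constants, variables indexed by sets of elements, negation and unbounded
disjunction -/
inductive MF (n : ℕ) : Type
  | cst (b : Bool) : MF n
  | var (e : Finset (V n)) : MF n
  | neg (φ : MF n) : MF n
  | or (t : ℕ) (φs : Fin t → MF n) : MF n

variable {n : ℕ}

/-- nesting depth of disjunctions -/
def MF.dep : MF n → ℕ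
  | .cst _ => 0
  | .var _ => 0
  | .neg φ => φ.dep
  | .or _ φs => 1 + univ.sup (fun j => (φs j).dep)

lemma MF.dep_lt {t : ℕ} (φs : Fin t → MF n) (j : Fin t) : (φs j).dep < (MF.or t φs).dep := by
  have h : (φs j).dep ≤ univ.sup (fun j => (φs j).dep) :=
    Finset.le_sup (f := fun j => (φs j).dep) (mem_univ j)
  simp only [MF.dep]
  omega

/-- `W k φ b π`: the partial matching `π` forces the value `b` of `φ`. -/
def W (k : ℕ) : MF n → Bool → PS n → Prop
  | .cst c, b, _ => c = b
  | .var e, b, π => if b = true then e ∈ π else (e ∉ π ∧ (¬ IsB e ∨ ¬ Disjoint e (cov π)))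
  | .neg φ, b, π => W k φ (!b) π
  | .or t φs, b, π => if b = true then ∃ j, W k (φs j) true π else
      ∀ π', IsPP π' → π ⊆ π' → π'.card + k * (MF.or t φs).dep ≤ n →
        ∀ j, ¬ W k (φs j) true π'

variable {k : ℕ}

lemma W_or_true {t : ℕ} {φs : Fin t → MF n} {π : PS n} :
    W k (.or t φs) true π ↔ ∃ j, W k (φs j) true π := by
  rw [W, if_pos rfl]

lemma W_or_false {t : ℕ} {φs : Fin t → MF n} {π : PS n} :
    W k (.or t φs) false π ↔ ∀ π', IsPP π' → π ⊆ π' →
      π'.card + k * (MF.or t φs).dep ≤ n → ∀ j, ¬ W k (φs j) true π' := by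
  rw [W, if_neg (by simp)]

lemma W_mono (φ : MF n) : ∀ {b : Bool} {π π1 : PS n}, W k φ b π → π ⊆ π1 → IsPP π1 →
    W k φ b π1 := by
  induction φ with
  | cst c => intro b π π1 h _ _; exact h
  | var e =>
    intro b π π1 h hs hPP
    cases b with
    | true =>
      simp only [W, if_true] at h ⊢
      exact hs h
    | false =>
      simp only [W, Bool.false_eq_true, if_false] at h ⊢
      obtain ⟨h1, h2 | h2⟩ := h
      · exact ⟨fun he => h2 (hPP.1 e he), Or.inl h2⟩
      · rw [Finset.not_disjoint_iff] at h2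
        obtain ⟨x, hx, hx'⟩ := h2
        obtain ⟨B, hB, hxB⟩ := mem_cov.mp hx'
        refine ⟨fun he => ?_, Or.inr ?_⟩
        · have := hPP.eq_of_mem he (hs hB) hx hxB
          subst this
          exact h1 hB
        · rw [Finset.not_disjoint_iff]
          exact ⟨x, hx, cov_mono hs hx'⟩
  | neg φ ih => intro b π π1 h hs hPP; exact ih h hs hPP
  | or t φs ih =>
    intro b π π1 h hs hPP
    cases b with
    | true =>
      rw [W_or_true] at h ⊢
      obtain ⟨j, hj⟩ := h
      exact ⟨j, ih j hj hs hPP⟩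
    | false =>
      rw [W_or_false] at h ⊢
      intro π' h1 h2 h3
      exact h π' h1 (hs.trans h2) h3

lemma W_cons (φ : MF n) : ∀ {π : PS n}, IsPP π → π.card + k * φ.dep ≤ n →
    W k φ true π → W k φ false π → False := by
  induction φ with
  | cst c =>
    intro π _ _ h1 h2
    simp only [W] at h1 h2
    rw [h1] at h2
    exact Bool.noConfusion h2
  | var e =>
    intro π _ _ h1 h2
    simp only [W, if_true, Bool.false_eq_true, if_false] at h1 h2
    exact h2.1 h1
  | neg φ ih =>
    intro π h h' h1 h2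
    exact ih h h' h2 h1
  | or t φs ih =>
    intro π h h' h1 h2
    rw [W_or_true] at h1
    rw [W_or_false] at h2
    obtain ⟨j, hj⟩ := h1
    exact h2 π h subset_rfl h' j hj

/-- the tree `T` finds a forcing partial matching (of at most `w` blocks beyond `ρ`) -/
def Rep (k : ℕ) (φ : MF n) (T : DT n (PS n)) (ρ : PS n) (w : ℕ) : Prop :=
  ∀ y, IsPP y → ρ ⊆ y → ∀ σ, T.eval y = some σ →
    ρ ⊆ σ ∧ σ ⊆ y ∧ σ.card ≤ ρ.card + w ∧ (W k φ true σ ∨ W k φ false σ)

/-- there is such a tree of height at most `w` -/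
def HasT (k : ℕ) (φ : MF n) (ρ : PS n) (w : ℕ) : Prop :=
  ∃ T : DT n (PS n), T.HtLe w ∧ Rep k φ T ρ w

lemma HasT.mono {φ : MF n} {ρ : PS n} {w w' : ℕ} (h : HasT k φ ρ w) (hw : w ≤ w') :
    HasT k φ ρ w' := by
  obtain ⟨T, h1, h2⟩ := h
  refine ⟨T, h1.mono hw, fun y hy hρ σ hσ => ?_⟩
  obtain ⟨a, b, c, d⟩ := h2 y hy hρ σ hσ
  exact ⟨a, b, by omega, d⟩

lemma HasT.persist {φ : MF n} {ρ ρ1 : PS n} {w : ℕ} (h : HasT k φ ρ w) (hs : ρ ⊆ ρ1) :
    HasT k φ ρ1 w := by
  classical
  obtain ⟨T, h1, h2⟩ := h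
  refine ⟨T.bind (fun σ => .leaf (σ ∪ ρ1)), ?_, ?_⟩
  · have := DT.HtLe.bind (f := fun σ : PS n => DT.leaf (σ ∪ ρ1)) (l := 0)
      (fun _ => trivial) h1
    simpa using this
  · intro y hy hρ1 σ hσ
    rw [DT.eval_bind] at hσ
    cases hT : T.eval y with
    | none => rw [hT] at hσ; simp at hσ
    | some σ0 =>
      rw [hT] at hσ
      simp only [Option.bind_some, DT.eval, Option.some.injEq] at hσ
      subst hσ
      obtain ⟨a, b, c, d⟩ := h2 y hy (hs.trans hρ1) σ0 hT
      have hsub : σ0 ∪ ρ1 ⊆ y := union_subset b hρ1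
      refine ⟨subset_union_right, hsub, ?_, ?_⟩
      · have e1 : (σ0 ∪ ρ1).card ≤ (σ0 \ ρ).card + ρ1.card := by
          have : σ0 ∪ ρ1 ⊆ (σ0 \ ρ) ∪ ρ1 := by
            intro B hB
            simp only [mem_union, mem_sdiff] at hB ⊢
            rcases hB with hB | hB
            · by_cases hBρ : B ∈ ρ
              · exact Or.inr (hs hBρ)
              · exact Or.inl ⟨hB, hBρ⟩
            · exact Or.inr hB
          exact (card_le_card this).trans (card_union_le _ _)
        have e2 : (σ0 \ ρ).card + ρ.card = σ0.card := card_sdiff_add_card_eq_card a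
        omega
      · rcases d with d | d
        · exact Or.inl (W_mono φ d subset_union_left (hy.mono hsub))
        · exact Or.inr (W_mono φ d subset_union_left (hy.mono hsub))

lemma HasT.cst (c : Bool) (ρ : PS n) (w : ℕ) : HasT k (.cst c) ρ w := by
  refine ⟨.leaf ρ, trivial, fun y _ hρ σ hσ => ?_⟩
  simp only [DT.eval, Option.some.injEq] at hσ
  subst hσ
  refine ⟨subset_rfl, hρ, by omega, ?_⟩
  cases c
  · exact Or.inr rfl
  · exact Or.inl rfl

lemma HasT.var (e : Finset (V n)) (ρ : PS n) (w : ℕ) (hw : 2 ≤ w) :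
    HasT k (.var e) ρ w := by
  classical
  by_cases he : IsB e
  · have hec := he.card
    refine ⟨.node e (fun π => .leaf (ρ ∪ π)), ⟨0, by omega, fun _ => trivial⟩, ?_⟩
    intro y hy hρ σ hσ
    rw [DT.eval] at hσ
    by_cases hc : e ⊆ cov y
    · rw [if_pos hc] at hσ
      simp only [DT.eval, Option.some.injEq] at hσ
      subst hσ
      have hsub : ρ ∪ mt e y ⊆ y := union_subset hρ (mt_subset _ _)
      refine ⟨subset_union_left, hsub, ?_, ?_⟩
      · have h1 := card_mt_le hy e
        have h2 := card_union_le ρ (mt e y)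
        omega
      · obtain ⟨x, hx⟩ : e.Nonempty := by
          rw [← card_pos]; omega
        by_cases hey : e ∈ y
        · left
          simp only [W, if_true]
          exact mem_union_right _ (mem_mt.mpr ⟨hey, x, hx, hx⟩)
        · right
          simp only [W, Bool.false_eq_true, if_false]
          refine ⟨fun h => hey (hsub h), Or.inr ?_⟩
          rw [Finset.not_disjoint_iff]
          exact ⟨x, hx, cov_mono subset_union_right (cov_mt hc hx)⟩
    · rw [if_neg hc] at hσ
      exact absurd hσ (by simp)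
  · refine ⟨.leaf ρ, trivial, fun y hy hρ σ hσ => ?_⟩
    simp only [DT.eval, Option.some.injEq] at hσ
    subst hσ
    refine ⟨subset_rfl, hρ, by omega, Or.inr ?_⟩
    simp only [W, Bool.false_eq_true, if_false]
    exact ⟨fun h => he (hy.1 e (hρ h)), Or.inl he⟩

lemma HasT.neg {φ : MF n} {ρ : PS n} {w : ℕ} (h : HasT k φ ρ w) :
    HasT k (.neg φ) ρ w := by
  obtain ⟨T, h1, h2⟩ := h
  refine ⟨T, h1, fun y hy hρ σ hσ => ?_⟩
  obtain ⟨a, b, c, d⟩ := h2 y hy hρ σ hσ
  refine ⟨a, b, c, ?_⟩
  rcases d with d | d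
  · exact Or.inr d
  · exact Or.inl d

end Pool.Agent.TH710.PHP
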