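import Pool.Agent.TH710.PHP.Trans

/-!
No refutation, given a partial matching for which all formulas have shallow trees.
-/

set_option linter.unusedSectionVars false

namespace Pool.Agent.TH710.PHP

open Finset

section trees

variable {n : ℕ} {k : ℕ} {ρ : PS n}

open Classical in
/-- chosen trees -/
noncomputable def tr (k : ℕ) (ρ : PS n) (ψ : MF n) : DT n (PS n) :=
  if h : HasT k ψ ρ k then h.choose else .leaf ρ

lemma tr_ht (ψ : MF n) : (tr k ρ ψ).HtLe k := by
  classical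
  unfold tr
  split_ifs with h2
  · exact h2.choose_spec.1
  · trivial

lemma tr_rep {ψ : MF n} (h : HasT k ψ ρ k) : Rep k ψ (tr k ρ ψ) ρ k := by
  classical
  unfold tr
  rw [dif_pos h]
  exact h.choose_spec.2

open Classical in
/-- truth value at a partial matching: can `ψ` become true? -/
noncomputable def tv (k : ℕ) (ρ : PS n) (y : PS n) (ψ : MF n) : Bool :=
  decide (∃ y', y ⊆ y' ∧ IsPP y' ∧ ∃ σ, (tr k ρ ψ).eval y' = some σ ∧ W k ψ true σ)

lemma tv_iff {y : PS n} (hy : IsPP y) {ψ : MF n} {σ : PS n} (h : (tr k ρ ψ).eval y = some σ) :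
    tv k ρ y ψ = true ↔ W k ψ true σ := by
  classical
  simp only [tv, decide_eq_true_eq]
  constructor
  · rintro ⟨y', h0, h0', σ', h1, h2⟩
    rw [DT.eval_mono h0' h0 _ h, Option.some.injEq] at h1
    rw [h1]
    exact h2
  · intro h1
    exact ⟨y, subset_rfl, hy, σ, h, h1⟩

lemma card_two' {ρ σ σ' : PS n} {a b : ℕ} (h : ρ ⊆ σ) (h' : ρ ⊆ σ') (hc : σ.card ≤ ρ.card + a)
    (hc' : σ'.card ≤ ρ.card + b) : (σ ∪ σ').card ≤ ρ.card + a + b := by
  have h1 : σ ∪ σ' ⊆ (σ \ ρ) ∪ σ' := by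
    intro B hB
    simp only [mem_union, mem_sdiff] at hB ⊢
    rcases hB with hB | hB
    · by_cases hBρ : B ∈ ρ
      · exact Or.inr (h' hBρ)
      · exact Or.inl ⟨hB, hBρ⟩
    · exact Or.inr hB
  have h2 := (card_le_card h1).trans (card_union_le _ _)
  have h3 : (σ \ ρ).card + ρ.card = σ.card := card_sdiff_add_card_eq_card h
  omega

/-- consistency of the values found by two trees -/
lemma consist {y : PS n} (hy : IsPP y) {ψ : MF n} {a b d : ℕ} (hd : ψ.dep ≤ d)
    (hroom : ρ.card + a + b + k * d ≤ n) {σ σ' : PS n} (h1 : ρ ⊆ σ) (h2 : σ ⊆ y)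
    (h3 : σ.card ≤ ρ.card + a) (h1' : ρ ⊆ σ') (h2' : σ' ⊆ y) (h3' : σ'.card ≤ ρ.card + b)
    (hW : W k ψ true σ) (hW' : W k ψ false σ') : False := by
  have hsub : σ ∪ σ' ⊆ y := union_subset h2 h2'
  have hc := card_two' h1 h1' h3 h3'
  have hk : k * ψ.dep ≤ k * d := Nat.mul_le_mul_left k hd
  refine W_cons ψ (hy.mono hsub) (by omega)
    (W_mono _ hW subset_union_left (hy.mono hsub))
    (W_mono _ hW' subset_union_right (hy.mono hsub))

end trees

section main

variable {α : Type} {n k d : ℕ} {ρ : PS n} {g : α → MF n} {𝒰 : Finset (Fm α)}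

/-- standing assumptions -/
structure Good (g : α → MF n) (k d : ℕ) (ρ : PS n) (𝒰 : Finset (Fm α)) : Prop where
  closed : ClosedFm 𝒰
  dep : ∀ φ ∈ 𝒰, (mf g φ).dep ≤ d
  tree : ∀ φ ∈ 𝒰, HasT k (mf g φ) ρ k

/-- the tree of `φ` succeeds at `y` -/
def Dec (g : α → MF n) (k : ℕ) (ρ y : PS n) (φ : Fm α) : Prop :=
  ∃ σ, (tr k ρ (mf g φ)).eval y = some σ

lemma Dec.mono {y y' : PS n} (hy' : IsPP y') (hs : y ⊆ y') {φ : Fm α} (h : Dec g k ρ y φ) :
    Dec g k ρ y' φ := by
  obtain ⟨σ, hσ⟩ := h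
  exact ⟨σ, DT.eval_mono hy' hs _ hσ⟩

/-- the outermost connective of `φ` is respected at `y` -/
def Ok (g : α → MF n) (k : ℕ) (ρ y : PS n) : Fm α → Prop
  | .var _ => True
  | .neg φ => Dec g k ρ y (.neg φ) ∧ Dec g k ρ y φ
  | .or t φs => ∃ σ, (tr k ρ (mf g (.or t φs))).eval y = some σ ∧
      (W k (mf g (.or t φs)) true σ → ∃ j, W k (mf g (φs j)) true σ ∧ Dec g k ρ y (φs j))
  | .and t φs => ∃ σ, (tr k ρ (mf g (.and t φs))).eval y = some σ ∧
      (W k (mf g (.and t φs)) false σ → ∃ j, W k (mf g (φs j)) false σ ∧ Dec g k ρ y (φs j))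

lemma Ok.mono {y y' : PS n} (hy' : IsPP y') (hs : y ⊆ y') {φ : Fm α} (h : Ok g k ρ y φ) :
    Ok g k ρ y' φ := by
  cases φ with
  | var a => trivial
  | neg φ => exact ⟨h.1.mono hy' hs, h.2.mono hy' hs⟩
  | or t φs =>
    obtain ⟨σ, h1, h2⟩ := h
    refine ⟨σ, DT.eval_mono hy' hs _ h1, fun hW => ?_⟩
    obtain ⟨j, h3, h4⟩ := h2 hW
    exact ⟨j, h3, h4.mono hy' hs⟩
  | and t φs =>
    obtain ⟨σ, h1, h2⟩ := h
    refine ⟨σ, DT.eval_mono hy' hs _ h1, fun hW => ?_⟩
    obtain ⟨j, h3, h4⟩ := h2 hW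
    exact ⟨j, h3, h4.mono hy' hs⟩

lemma exists_dec (φ : Fm α) (π : PS n) (hπ : IsPP π) (hr : π.card + k ≤ n) :
    ∃ y, π ⊆ y ∧ IsPP y ∧ y.card ≤ π.card + k ∧ Dec g k ρ y φ := by
  obtain ⟨y, σ, h1, h2, h3, h4⟩ := (tr k ρ (mf g φ)).exists_eval k π (tr_ht _) hπ hr
  exact ⟨y, h1, h2, h3, σ, h4⟩

lemma exists_ok (φ : Fm α) (π : PS n) (hπ : IsPP π) (hr : π.card + 2 * k ≤ n) :
    ∃ y, π ⊆ y ∧ IsPP y ∧ y.card ≤ π.card + 2 * k ∧ Ok g k ρ y φ := by
  classical
  cases φ with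
  | var a => exact ⟨π, subset_rfl, hπ, by omega, trivial⟩
  | neg φ =>
    obtain ⟨y, h1, h2, h3, h4⟩ := exists_dec (g := g) (k := k) (ρ := ρ) (.neg φ) π hπ (by omega)
    obtain ⟨z, g1, g2, g3, g4⟩ := exists_dec (g := g) (k := k) (ρ := ρ) φ y h2 (by omega)
    exact ⟨z, h1.trans g1, g2, by omega, h4.mono g2 g1, g4⟩
  | or t φs =>
    obtain ⟨y, h1, h2, h3, σ, h4⟩ := exists_dec (g := g) (k := k) (ρ := ρ) (.or t φs) π hπ
      (by omega)
    by_cases hW : W k (mf g (.or t φs)) true σ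
    · obtain ⟨j, hj⟩ := W_mf_or_true.mp hW
      obtain ⟨z, g1, g2, g3, g4⟩ := exists_dec (g := g) (k := k) (ρ := ρ) (φs j) y h2 (by omega)
      exact ⟨z, h1.trans g1, g2, by omega, σ, DT.eval_mono g2 g1 _ h4, fun _ => ⟨j, hj, g4⟩⟩
    · exact ⟨y, h1, h2, by omega, σ, h4, fun h => absurd h hW⟩
  | and t φs =>
    obtain ⟨y, h1, h2, h3, σ, h4⟩ := exists_dec (g := g) (k := k) (ρ := ρ) (.and t φs) π hπ
      (by omega)
    by_cases hW : W k (mf g (.and t φs)) false σ
    · obtain ⟨j, hj⟩ := W_mf_and_false.mp hW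
      obtain ⟨z, g1, g2, g3, g4⟩ := exists_dec (g := g) (k := k) (ρ := ρ) (φs j) y h2 (by omega)
      exact ⟨z, h1.trans g1, g2, by omega, σ, DT.eval_mono g2 g1 _ h4, fun _ => ⟨j, hj, g4⟩⟩
    · exact ⟨y, h1, h2, by omega, σ, h4, fun h => absurd h hW⟩

lemma exists_oks (Q : Finset (Fm α)) (π : PS n) (hπ : IsPP π) (hr : π.card + Q.card * (2 * k) ≤ n) :
    ∃ y, π ⊆ y ∧ IsPP y ∧ y.card ≤ π.card + Q.card * (2 * k) ∧ ∀ φ ∈ Q, Ok g k ρ y φ := by
  classical
  induction Q using Finset.induction_on with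
  | empty => exact ⟨π, subset_rfl, hπ, by omega, by simp⟩
  | insert a Q ha ih =>
    rw [card_insert_of_notMem ha, Nat.add_mul, one_mul] at hr ⊢
    obtain ⟨y, h1, h2, h3, h4⟩ := ih (by omega)
    obtain ⟨z, g1, g2, g3, g4⟩ := exists_ok (g := g) (k := k) (ρ := ρ) a y h2 (by omega)
    refine ⟨z, h1.trans g1, g2, by omega, ?_⟩
    intro φ hφ
    rcases mem_insert.mp hφ with rfl | hφ
    · exact g4
    · exact (h4 φ hφ).mono g2 g1

lemma exists_decs {T : ℕ} (L : Fin T → Fm α) (P : Finset (Fin T)) (π : PS n) (hπ : IsPP π)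
    (hr : π.card + P.card * k ≤ n) :
    ∃ y, π ⊆ y ∧ IsPP y ∧ y.card ≤ π.card + P.card * k ∧ ∀ j ∈ P, Dec g k ρ y (L j) := by
  classical
  induction P using Finset.induction_on with
  | empty => exact ⟨π, subset_rfl, hπ, by omega, by simp⟩
  | insert a P ha ih =>
    rw [card_insert_of_notMem ha, Nat.add_mul, one_mul] at hr ⊢
    obtain ⟨y, h1, h2, h3, h4⟩ := ih (by omega)
    obtain ⟨z, g1, g2, g3, g4⟩ := exists_dec (g := g) (k := k) (ρ := ρ) (L a) y h2 (by omega)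
    refine ⟨z, h1.trans g1, g2, by omega, ?_⟩
    intro j hj
    rcases mem_insert.mp hj with rfl | hj
    · exact g4
    · exact (h4 j hj).mono g2 g1

/-- respecting connectives -/
lemma ok_resp (hG : Good g k d ρ 𝒰) (hroom : ρ.card + 2 * k + k * d ≤ n) {y : PS n}
    (hy : IsPP y) (hρy : ρ ⊆ y) (hyn : y.card + k ≤ n) {φ : Fm α} (hφ : φ ∈ 𝒰) (h : Ok g k ρ y φ) :
    RespAt (fun χ => tv k ρ y (mf g χ)) φ := by
  classical
  cases φ with
  | var a => trivial
  | neg φ =>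
    obtain ⟨⟨σ, h1⟩, σ', h2⟩ := h
    have hφ' := hG.closed.neg φ hφ
    obtain ⟨a1, a2, a3, a4⟩ := tr_rep (hG.tree _ hφ) y hy hρy σ h1
    obtain ⟨b1, b2, b3, b4⟩ := tr_rep (hG.tree _ hφ') y hy hρy σ' h2
    have e1 := tv_iff hy h1
    have e2 := tv_iff hy h2
    have hd := hG.dep φ hφ'
    show tv k ρ y (mf g (.neg φ)) = !(tv k ρ y (mf g φ))
    have e1' : tv k ρ y (mf g (.neg φ)) = true ↔ W k (mf g φ) false σ := e1
    have a4' : W k (mf g φ) false σ ∨ W k (mf g φ) true σ := a4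
    cases hv1 : tv k ρ y (mf g (.neg φ)) <;> cases hv2 : tv k ρ y (mf g φ)
    · exfalso
      have g1 : ¬ W k (mf g φ) false σ := fun h => by rw [e1'.mpr h] at hv1; simp at hv1
      have g2 : ¬ W k (mf g φ) true σ' := fun h => by rw [e2.mpr h] at hv2; simp at hv2
      have g3 := a4'.resolve_left g1
      have g4 := b4.resolve_left g2
      exact consist hy hd (by omega) a1 a2 a3 b1 b2 b3 g3 g4
    · rfl
    · rfl
    · exfalso
      exact consist hy hd (by omega) b1 b2 b3 a1 a2 a3 (e2.mp hv2) (e1'.mp hv1)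
  | or t φs =>
    obtain ⟨σ, h1, h2⟩ := h
    obtain ⟨a1, a2, a3, a4⟩ := tr_rep (hG.tree _ hφ) y hy hρy σ h1
    have e1 := tv_iff hy h1
    show tv k ρ y (mf g (.or t φs)) = true ↔ ∃ j, tv k ρ y (mf g (φs j)) = true
    by_cases hW : W k (mf g (.or t φs)) true σ
    · obtain ⟨j, hWj, σ', h3⟩ := h2 hW
      refine ⟨fun _ => ⟨j, ?_⟩, fun _ => e1.mpr hW⟩
      have hj := hG.closed.or t φs hφ j
      obtain ⟨b1, b2, b3, b4⟩ := tr_rep (hG.tree _ hj) y hy hρy σ' h3
      rw [tv_iff hy h3]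
      rcases b4 with h | h
      · exact h
      · exfalso
        exact consist hy (hG.dep _ hj) (by omega) a1 a2 a3 b1 b2 b3 hWj h
    · have hWf : W k (mf g (.or t φs)) false σ := a4.resolve_left hW
      constructor
      · intro h; exact absurd (e1.mp h) hW
      · rintro ⟨j, hj⟩
        exfalso
        simp only [tv, decide_eq_true_eq] at hj
        obtain ⟨y', h5, h6, σ', h3, h4⟩ := hj
        have hj := hG.closed.or t φs hφ j
        obtain ⟨b1, b2, b3, b4⟩ := tr_rep (hG.tree _ hj) y' h6 (hρy.trans h5) σ' h3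
        have hsub : σ ∪ σ' ⊆ y' := union_subset (a2.trans h5) b2
        have hc := card_two' a1 b1 a3 b3
        have hk : k * (mf g (.or t φs)).dep ≤ k * d := Nat.mul_le_mul_left k (hG.dep _ hφ)
        exact W_mf_or_false.mp hWf (σ ∪ σ') (h6.mono hsub) subset_union_left (by omega) j
          (W_mono _ h4 subset_union_right (h6.mono hsub))
  | and t φs =>
    obtain ⟨σ, h1, h2⟩ := h
    obtain ⟨a1, a2, a3, a4⟩ := tr_rep (hG.tree _ hφ) y hy hρy σ h1
    have e1 := tv_iff hy h1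
    show tv k ρ y (mf g (.and t φs)) = true ↔ ∀ j, tv k ρ y (mf g (φs j)) = true
    by_cases hW : W k (mf g (.and t φs)) false σ
    · obtain ⟨j, hWj, σ', h3⟩ := h2 hW
      have hj := hG.closed.and t φs hφ j
      obtain ⟨b1, b2, b3, b4⟩ := tr_rep (hG.tree _ hj) y hy hρy σ' h3
      constructor
      · intro h
        exfalso
        exact consist hy (hG.dep _ hφ) (by omega) a1 a2 a3 a1 a2 a3 (e1.mp h) hW
      · intro h
        exfalso
        have h5 := (tv_iff hy h3).mp (h j)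
        exact consist hy (hG.dep _ hj) (by omega) b1 b2 b3 a1 a2 a3 h5 hWj
    · have hWt : W k (mf g (.and t φs)) true σ := a4.resolve_right hW
      refine ⟨fun _ j => ?_, fun _ => e1.mpr hWt⟩
      simp only [tv, decide_eq_true_eq]
      obtain ⟨y', h5, h6, h7, σ', h8⟩ := exists_dec (g := g) (k := k) (ρ := ρ) (φs j) y hy hyn
      have hj := hG.closed.and t φs hφ j
      obtain ⟨b1, b2, b3, b4⟩ := tr_rep (hG.tree _ hj) y' h6 (hρy.trans h5) σ' h8
      refine ⟨y', h5, h6, σ', h8, ?_⟩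
      rcases b4 with h | h
      · exact h
      · exfalso
        have hsub : σ ∪ σ' ⊆ y' := union_subset (a2.trans h5) b2
        have hc := card_two' a1 b1 a3 b3
        have hk : k * (mf g (.and t φs)).dep ≤ k * d := Nat.mul_le_mul_left k (hG.dep _ hφ)
        exact W_mf_and_true.mp hWt (σ ∪ σ') (h6.mono hsub) subset_union_left (by omega) j
          (W_mono _ h subset_union_right (h6.mono hsub))

/-- the line `i` is false at some small matching -/
def Bad (g : α → MF n) (k : ℕ) (ρ : PS n) {T : ℕ} (L : Fin T → Fm α) (i : Fin T) : Prop :=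
  ∃ σ, IsPP σ ∧ ρ ⊆ σ ∧ σ.card ≤ ρ.card + k ∧ W k (mf g (L i)) false σ

/-- local inferences preserve truth -/
lemma local_contra {c T : ℕ} {L : Fin T → Fm α} (hG : Good g k d ρ (allSub L))
    (hroom : ρ.card + (3 * c + 6 + d) * k ≤ n) {i : Fin T} {H : (Fm α → Bool) → Prop}
    (hloc : Local c L i H) (ih : ∀ j < i, ¬ Bad g k ρ L j) {π : PS n} (hπ : IsPP π)
    (hρπ : ρ ⊆ π) (hπc : π.card ≤ ρ.card + 3 * k) (hW : W k (mf g (L i)) false π)
    (hH : ∀ y, IsPP y → π ⊆ y → H (fun χ => tv k ρ y (mf g χ))) : False := by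
  classical
  obtain ⟨P, Q, hP, hQ, hlt, hQU, hinf⟩ := hloc
  have e0 : (3 * c + 6 + d) * k = c * (2 * k) + c * k + 6 * k + k * d := by ring
  have eQ : Q.card * (2 * k) ≤ c * (2 * k) := Nat.mul_le_mul_right _ hQ
  have eP : P.card * k ≤ c * k := Nat.mul_le_mul_right _ hP
  obtain ⟨y1, h1, h2, h3, h4⟩ := exists_oks (g := g) (k := k) (ρ := ρ) Q π hπ (by omega)
  obtain ⟨y2, g1, g2, g3, g4⟩ := exists_decs (g := g) (k := k) (ρ := ρ) L P y1 h2 (by omega)
  obtain ⟨y, f1, f2, f3, σ, f4⟩ := exists_dec (g := g) (k := k) (ρ := ρ) (L i) y2 g2 (by omega)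
  have hπy : π ⊆ y := h1.trans (g1.trans f1)
  have hρy : ρ ⊆ y := hρπ.trans hπy
  have hres : (fun χ => tv k ρ y (mf g χ)) (L i) = true := by
    refine hinf (fun χ => tv k ρ y (mf g χ)) ?_ ?_ ?_
    · intro χ hχ
      exact ok_resp hG (by omega) f2 hρy (by omega) (hQU hχ) ((h4 χ hχ).mono f2 (g1.trans f1))
    · intro j hj
      obtain ⟨τ, hτ⟩ := (g4 j hj).mono f2 f1
      obtain ⟨a1, a2, a3, a4⟩ := tr_rep (hG.tree _ (mem_allSub L j)) y f2 hρy τ hτ
      show tv k ρ y (mf g (L j)) = true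
      rw [tv_iff f2 hτ]
      rcases a4 with h | h
      · exact h
      · exact absurd ⟨τ, f2.mono a2, a1, a3, h⟩ (ih j (hlt j hj))
    · exact hH y f2 hπy
  have h5 := (tv_iff f2 f4).mp hres
  obtain ⟨a1, a2, a3, a4⟩ := tr_rep (hG.tree _ (mem_allSub L i)) y f2 hρy σ f4
  exact consist f2 (hG.dep _ (mem_allSub L i)) (a := k) (b := 3 * k) (by omega) a1 a2 a3 hρπ hπy
    hπc h5 hW

/-- no line is false at a small matching -/
theorem no_bad {c T : ℕ} {L : Fin T → Fm α} (hG : Good g k d ρ (allSub L))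
    (hroom : ρ.card + (3 * c + 6 + d) * k ≤ n)
    (hL : ∀ i, (¬ Bad g k ρ L i) ∨ Inferred c L i) : ∀ i, ¬ Bad g k ρ L i := by
  classical
  have e0 : (3 * c + 6 + d) * k = c * (2 * k) + c * k + 6 * k + k * d := by ring
  suffices H : ∀ m : ℕ, ∀ i : Fin T, i.val = m → ¬ Bad g k ρ L i from fun i => H i.val i rfl
  intro m
  induction m using Nat.strong_induction_on with
  | _ m ihm =>
    intro i him hbad
    have ih : ∀ j < i, ¬ Bad g k ρ L j := fun j hj => ihm j.val (by rw [← him]; exact hj) j rfl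
    rcases hL i with h | h
    · exact h hbad
    obtain ⟨σ, s1, s2, s3, s4⟩ := hbad
    rcases h with h | ⟨t, φs, hmem, hA, hB⟩ | ⟨t, φs, hmem, hA, hB⟩
    · exact local_contra hG hroom h ih s1 s2 (by omega) s4 (fun _ _ _ => trivial)
    · obtain ⟨y1, h1, h2, h3, τ, h4⟩ := exists_dec (g := g) (k := k) (ρ := ρ) (.and t φs) σ s1
        (by omega)
      obtain ⟨a1, a2, a3, a4⟩ := tr_rep (hG.tree _ hmem) y1 h2 (s2.trans h1) τ h4
      by_cases hW : W k (mf g (.and t φs)) false τ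
      · obtain ⟨j, hj⟩ := W_mf_and_false.mp hW
        obtain ⟨y2, g1, g2, g3, τ', g4⟩ := exists_dec (g := g) (k := k) (ρ := ρ) (φs j) y1 h2
          (by omega)
        refine local_contra hG hroom (hB j) ih g2 (s2.trans (h1.trans g1)) (by omega)
          (W_mono _ s4 (h1.trans g1) g2) (fun y hy hy2 => ?_)
        have hjU := hG.closed.and t φs hmem j
        have g4' := DT.eval_mono hy hy2 _ g4
        obtain ⟨b1, b2, b3, b4⟩ := tr_rep (hG.tree _ hjU) y hy
          ((s2.trans (h1.trans g1)).trans hy2) τ' g4'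
        rw [← Bool.not_eq_true]
        intro hc
        rw [tv_iff hy g4'] at hc
        exact consist hy (hG.dep _ hjU) (a := k) (b := k) (by omega) b1 b2 b3 a1
          (a2.trans (g1.trans hy2)) a3 hc hj
      · have hWt := a4.resolve_right hW
        refine local_contra hG hroom hA ih h2 (s2.trans h1) (by omega)
          (W_mono _ s4 h1 h2) (fun y hy hy2 => ?_)
        exact (tv_iff hy (DT.eval_mono hy hy2 _ h4)).mpr hWt
    · obtain ⟨y1, h1, h2, h3, τ, h4⟩ := exists_dec (g := g) (k := k) (ρ := ρ) (.or t φs) σ s1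
        (by omega)
      obtain ⟨a1, a2, a3, a4⟩ := tr_rep (hG.tree _ hmem) y1 h2 (s2.trans h1) τ h4
      by_cases hW : W k (mf g (.or t φs)) true τ
      · obtain ⟨j, hj⟩ := W_mf_or_true.mp hW
        obtain ⟨y2, g1, g2, g3, τ', g4⟩ := exists_dec (g := g) (k := k) (ρ := ρ) (φs j) y1 h2
          (by omega)
        refine local_contra hG hroom (hB j) ih g2 (s2.trans (h1.trans g1)) (by omega)
          (W_mono _ s4 (h1.trans g1) g2) (fun y hy hy2 => ?_)
        have hjU := hG.closed.or t φs hmem j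
        have g4' := DT.eval_mono hy hy2 _ g4
        obtain ⟨b1, b2, b3, b4⟩ := tr_rep (hG.tree _ hjU) y hy
          ((s2.trans (h1.trans g1)).trans hy2) τ' g4'
        show tv k ρ y (mf g (φs j)) = true
        rw [tv_iff hy g4']
        rcases b4 with h | h
        · exact h
        · exfalso
          exact consist hy (hG.dep _ hjU) (a := k) (b := k) (by omega) a1
            (a2.trans (g1.trans hy2)) a3 b1 b2 b3 hj h
      · have hWf := a4.resolve_left hW
        refine local_contra hG hroom hA ih h2 (s2.trans h1) (by omega)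
          (W_mono _ s4 h1 h2) (fun y hy hy2 => ?_)
        rw [← Bool.not_eq_true]
        intro hc
        exact hW ((tv_iff hy (DT.eval_mono hy hy2 _ h4)).mp hc)

end main

end Pool.Agent.TH710.PHP
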