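import Mathlib

/-!
Partial matchings between `n + 1` pigeons and `n` holes, and decision trees over them.
(Adapted from the library on partial partitions `Pool.Agent.Helper600R2.Cnt` of the starting files.)
-/

set_option linter.unusedSectionVars false

namespace Pool.Agent.TH710.PHP

open Finset

/-- points: `n + 1` pigeons and `n` holes -/
abbrev V (n : ℕ) : Type := Fin (n + 1) ⊕ Fin n

variable {n : ℕ}

/-- sets of blocks -/
abbrev PS (n : ℕ) : Type := Finset (Finset (V n))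

/-- the block of a pigeon and a hole -/
def ed (i : Fin (n + 1)) (j : Fin n) : Finset (V n) := {Sum.inl i, Sum.inr j}

/-- blocks consist of a pigeon and a hole -/
def IsB (B : Finset (V n)) : Prop := ∃ i j, B = ed i j

lemma mem_ed {i : Fin (n + 1)} {j : Fin n} {x : V n} :
    x ∈ ed i j ↔ x = Sum.inl i ∨ x = Sum.inr j := by
  simp [ed]

lemma ed_card (i : Fin (n + 1)) (j : Fin n) : (ed i j).card = 2 := by
  rw [ed, card_pair]
  simp

lemma IsB.card {B : Finset (V n)} (h : IsB B) : B.card = 2 := by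
  obtain ⟨i, j, rfl⟩ := h
  exact ed_card i j

lemma isB_ed (i : Fin (n + 1)) (j : Fin n) : IsB (ed i j) := ⟨i, j, rfl⟩

/-- partial matchings -/
def IsPP (ρ : PS n) : Prop :=
  (∀ B ∈ ρ, IsB B) ∧ ∀ B ∈ ρ, ∀ C ∈ ρ, B ≠ C → Disjoint B C

/-- covered elements -/
def cov (ρ : PS n) : Finset (V n) := ρ.biUnion id

/-- blocks meeting `X` -/
def mt (X : Finset (V n)) (ρ : PS n) : PS n := ρ.filter (fun B => ¬ Disjoint B X)

lemma mem_cov {ρ : PS n} {x : V n} : x ∈ cov ρ ↔ ∃ B ∈ ρ, x ∈ B := by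
  simp [cov]

lemma cov_mono {ρ σ : PS n} (h : ρ ⊆ σ) : cov ρ ⊆ cov σ := by
  intro x hx
  rw [mem_cov] at hx ⊢
  obtain ⟨B, hB, hx⟩ := hx
  exact ⟨B, h hB, hx⟩

lemma cov_union (ρ σ : PS n) : cov (ρ ∪ σ) = cov ρ ∪ cov σ := by
  ext x
  simp only [mem_cov, mem_union]
  constructor
  · rintro ⟨B, hB | hB, hx⟩
    · exact Or.inl ⟨B, hB, hx⟩
    · exact Or.inr ⟨B, hB, hx⟩
  · rintro (⟨B, hB, hx⟩ | ⟨B, hB, hx⟩)
    · exact ⟨B, Or.inl hB, hx⟩
    · exact ⟨B, Or.inr hB, hx⟩

lemma IsPP.mono {ρ σ : PS n} (h : IsPP σ) (hs : ρ ⊆ σ) : IsPP ρ :=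
  ⟨fun B hB => h.1 B (hs hB), fun B hB C hC hne => h.2 B (hs hB) C (hs hC) hne⟩

lemma IsPP.card_two {ρ : PS n} (h : IsPP ρ) {B : Finset (V n)} (hB : B ∈ ρ) : B.card = 2 :=
  (h.1 B hB).card

lemma IsPP.eq_of_mem {ρ : PS n} (h : IsPP ρ) {B C : Finset (V n)} (hB : B ∈ ρ)
    (hC : C ∈ ρ) {x : V n} (hx : x ∈ B) (hx' : x ∈ C) : B = C := by
  by_contra hne
  exact Finset.disjoint_left.mp (h.2 B hB C hC hne) hx hx'

lemma IsPP.empty : IsPP (∅ : PS n) := ⟨by simp, by simp⟩

lemma IsPP.insert {ρ : PS n} (h : IsPP ρ) {B : Finset (V n)} (hB : IsB B)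
    (hd : Disjoint B (cov ρ)) : IsPP (insert B ρ) := by
  refine ⟨?_, ?_⟩
  · intro C hC
    rw [mem_insert] at hC
    rcases hC with rfl | hC
    · exact hB
    · exact h.1 C hC
  · have key : ∀ C ∈ ρ, Disjoint B C := by
      intro C hC
      refine Finset.disjoint_left.mpr (fun x hx hx' => ?_)
      exact Finset.disjoint_left.mp hd hx (mem_cov.mpr ⟨C, hC, hx'⟩)
    intro C hC C' hC' hne
    rw [mem_insert] at hC hC'
    rcases hC with rfl | hC <;> rcases hC' with rfl | hC'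
    · exact absurd rfl hne
    · exact key C' hC'
    · exact (key C hC).symm
    · exact h.2 C hC C' hC' hne

lemma card_cov {ρ : PS n} (h : IsPP ρ) : (cov ρ).card = 2 * ρ.card := by
  rw [cov, card_biUnion]
  · have h1 : ∑ B ∈ ρ, (id B : Finset (V n)).card = ∑ _B ∈ ρ, 2 :=
      Finset.sum_congr rfl (fun B hB => h.card_two hB)
    rw [h1]
    simp [mul_comm]
  · intro B hB C hC hne
    exact h.2 B hB C hC hne

lemma card_V : Fintype.card (V n) = 2 * n + 1 := by
  simp only [V, Fintype.card_sum, Fintype.card_fin]; ring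

lemma card_free {ρ : PS n} (h : IsPP ρ) :
    (univ \ cov ρ).card + 2 * ρ.card = 2 * n + 1 := by
  rw [← card_cov h, card_sdiff_add_card_eq_card (subset_univ _), card_univ, card_V]

/-- the block containing a point -/
lemma exists_pigeon {ρ : PS n} (h : ρ.card < n + 1) (hρ : IsPP ρ) :
    ∃ i : Fin (n + 1), (Sum.inl i : V n) ∉ cov ρ := by
  classical
  by_contra hcon
  push Not at hcon
  have h1 : ∀ i : Fin (n + 1), ∃ B ∈ ρ, (Sum.inl i : V n) ∈ B := fun i => mem_cov.mp (hcon i)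
  choose f hf1 hf2 using h1
  have h2 : (univ : Finset (Fin (n + 1))).card ≤ ρ.card := by
    refine card_le_card_of_injOn f (fun i _ => hf1 i) ?_
    intro i _ i' _ hii
    obtain ⟨a, b, hab⟩ := hρ.1 _ (hf1 i)
    have e1 := hf2 i
    have e2 := hf2 i'
    have hii' : f i = f i' := hii
    rw [← hii', hab, mem_ed] at e2
    rw [hab, mem_ed] at e1
    simp at e1 e2
    rw [e1, e2]
  rw [card_univ, Fintype.card_fin] at h2
  omega

lemma exists_hole {ρ : PS n} (h : ρ.card < n) (hρ : IsPP ρ) :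
    ∃ j : Fin n, (Sum.inr j : V n) ∉ cov ρ := by
  classical
  by_contra hcon
  push Not at hcon
  have h1 : ∀ i : Fin n, ∃ B ∈ ρ, (Sum.inr i : V n) ∈ B := fun i => mem_cov.mp (hcon i)
  choose f hf1 hf2 using h1
  have h2 : (univ : Finset (Fin n)).card ≤ ρ.card := by
    refine card_le_card_of_injOn f (fun i _ => hf1 i) ?_
    intro i _ i' _ hii
    obtain ⟨a, b, hab⟩ := hρ.1 _ (hf1 i)
    have e1 := hf2 i
    have e2 := hf2 i'
    have hii' : f i = f i' := hii
    rw [← hii', hab, mem_ed] at e2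
    rw [hab, mem_ed] at e1
    simp at e1 e2
    rw [e1, e2]
  rw [card_univ, Fintype.card_fin] at h2
  omega

lemma disjoint_ed {ρ : PS n} {i : Fin (n + 1)} {j : Fin n} (hi : (Sum.inl i : V n) ∉ cov ρ)
    (hj : (Sum.inr j : V n) ∉ cov ρ) : Disjoint (ed i j) (cov ρ) := by
  refine Finset.disjoint_left.mpr (fun x hx hx' => ?_)
  rw [mem_ed] at hx
  rcases hx with rfl | rfl
  · exact hi hx'
  · exact hj hx'

lemma mt_subset (X : Finset (V n)) (ρ : PS n) : mt X ρ ⊆ ρ := filter_subset _ _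

lemma mem_mt {X : Finset (V n)} {ρ : PS n} {B : Finset (V n)} :
    B ∈ mt X ρ ↔ B ∈ ρ ∧ ∃ x ∈ X, x ∈ B := by
  simp only [mt, mem_filter, Finset.not_disjoint_iff]
  constructor
  · rintro ⟨h, x, hx, hx'⟩; exact ⟨h, x, hx', hx⟩
  · rintro ⟨h, x, hx, hx'⟩; exact ⟨h, x, hx', hx⟩

lemma card_mt_le {ρ : PS n} (h : IsPP ρ) (X : Finset (V n)) :
    (mt X ρ).card ≤ X.card := by
  classical
  have h1 : ∀ B ∈ mt X ρ, ∃ x ∈ X, x ∈ B := fun B hB => (mem_mt.mp hB).2
  rcases (mt X ρ).eq_empty_or_nonempty with h0 | ⟨B0, hB0⟩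
  · rw [h0]; simp
  have : Nonempty (V n) := ⟨(h1 B0 hB0).choose⟩
  choose! f hf using h1
  refine card_le_card_of_injOn f (fun B hB => (hf B hB).1) ?_
  intro B hB C hC hBC
  have hB' := mem_coe.mp hB
  have hC' := mem_coe.mp hC
  refine h.eq_of_mem (mt_subset _ _ hB') (mt_subset _ _ hC') (hf B hB').2 ?_
  rw [hBC]
  exact (hf C hC').2

lemma cov_mt {X : Finset (V n)} {ρ : PS n} (h : X ⊆ cov ρ) : X ⊆ cov (mt X ρ) := by
  intro x hx
  obtain ⟨B, hB, hxB⟩ := mem_cov.mp (h hx)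
  exact mem_cov.mpr ⟨B, mem_mt.mpr ⟨hB, x, hx, hxB⟩, hxB⟩

lemma mt_stable {X : Finset (V n)} {ρ σ : PS n} (hσ : IsPP σ) (hs : ρ ⊆ σ)
    (hX : X ⊆ cov ρ) : mt X σ = mt X ρ := by
  ext B
  rw [mem_mt, mem_mt]
  constructor
  · rintro ⟨hB, x, hx, hxB⟩
    obtain ⟨C, hC, hxC⟩ := mem_cov.mp (hX hx)
    have := hσ.eq_of_mem hB (hs hC) hxB hxC
    subst this
    exact ⟨hC, x, hx, hxB⟩
  · rintro ⟨hB, h⟩
    exact ⟨hs hB, h⟩

/-- covering a set -/
lemma exists_cover (X : Finset (V n)) (π : PS n) (hπ : IsPP π)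
    (h : π.card + X.card ≤ n) :
    ∃ y : PS n, π ⊆ y ∧ IsPP y ∧ X ⊆ cov y ∧ y.card ≤ π.card + X.card := by
  classical
  induction X using Finset.induction_on with
  | empty => exact ⟨π, subset_rfl, hπ, by simp, by simp⟩
  | insert a X ha ih =>
    rw [card_insert_of_notMem ha] at h ⊢
    obtain ⟨y, hy1, hy2, hy3, hy4⟩ := ih (by omega)
    by_cases hay : a ∈ cov y
    · refine ⟨y, hy1, hy2, ?_, by omega⟩
      intro x hx
      rw [mem_insert] at hx
      rcases hx with rfl | hx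
      · exact hay
      · exact hy3 hx
    · obtain ⟨B, hB1, hB2, hdis⟩ : ∃ B : Finset (V n), a ∈ B ∧ IsB B ∧ Disjoint B (cov y) := by
        cases a with
        | inl i =>
          obtain ⟨j, hj⟩ := exists_hole (ρ := y) (by omega) hy2
          exact ⟨ed i j, by simp [mem_ed], isB_ed i j, disjoint_ed hay hj⟩
        | inr j =>
          obtain ⟨i, hi⟩ := exists_pigeon (ρ := y) (by omega) hy2
          exact ⟨ed i j, by simp [mem_ed], isB_ed i j, disjoint_ed hi hay⟩
      refine ⟨insert B y, hy1.trans (subset_insert _ _), hy2.insert hB2 hdis, ?_, ?_⟩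
      · intro x hx
        rw [mem_insert] at hx
        rcases hx with rfl | hx
        · exact mem_cov.mpr ⟨B, mem_insert_self _ _, hB1⟩
        · exact cov_mono (subset_insert _ _) (hy3 hx)
      · have := card_insert_le B y
        omega

/-- decision trees: a node asks for the blocks meeting a set of elements -/
inductive DT (n : ℕ) (β : Type) : Type
  | leaf (x : β) : DT n β
  | node (X : Finset (V n)) (ch : PS n → DT n β) : DT n β

/-- evaluation of a decision tree -/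
def DT.eval {β : Type} (y : PS n) : DT n β → Option β
  | .leaf x => some x
  | .node X ch => if X ⊆ cov y then (ch (mt X y)).eval y else none

/-- height at most `k` -/
def DT.HtLe {β : Type} : DT n β → ℕ → Prop
  | .leaf _, _ => True
  | .node X ch, k => ∃ k', X.card + k' ≤ k ∧ ∀ π, (ch π).HtLe k'

/-- attaching trees at the leaves -/
def DT.bind {β γ : Type} (f : β → DT n γ) : DT n β → DT n γ
  | .leaf x => f x
  | .node X ch => .node X (fun π => (ch π).bind f)

lemma DT.eval_bind {β γ : Type} (f : β → DT n γ) (y : PS n) (T : DT n β) :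
    (T.bind f).eval y = (T.eval y).bind (fun x => (f x).eval y) := by
  induction T with
  | leaf x => rfl
  | node X ch ih =>
    simp only [DT.bind, DT.eval]
    by_cases h : X ⊆ cov y
    · rw [if_pos h, if_pos h]
      exact ih _
    · rw [if_neg h, if_neg h]
      rfl

lemma DT.HtLe.mono {β : Type} {T : DT n β} {k k' : ℕ} (h : T.HtLe k) (hk : k ≤ k') :
    T.HtLe k' := by
  cases T with
  | leaf x => trivial
  | node X ch =>
    obtain ⟨l, h1, h2⟩ := h
    exact ⟨l, h1.trans hk, h2⟩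

lemma DT.HtLe.bind {β γ : Type} {f : β → DT n γ} {l : ℕ} (hf : ∀ x, (f x).HtLe l)
    {T : DT n β} : ∀ {k : ℕ}, T.HtLe k → (T.bind f).HtLe (k + l) := by
  induction T with
  | leaf x => intro k _; exact (hf x).mono (Nat.le_add_left _ _)
  | node X ch ih =>
    rintro k ⟨k', h1, h2⟩
    exact ⟨k' + l, by omega, fun π => ih π (h2 π)⟩

/-- evaluation is stable under extension -/
lemma DT.eval_mono {β : Type} {y y' : PS n} (hy' : IsPP y') (hs : y ⊆ y') {x : β} :
    ∀ (T : DT n β), T.eval y = some x → T.eval y' = some x := by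
  intro T
  induction T with
  | leaf a => intro h; exact h
  | node X ch ih =>
    intro h
    rw [DT.eval] at h ⊢
    by_cases hX : X ⊆ cov y
    · rw [if_pos hX] at h
      rw [if_pos (hX.trans (cov_mono hs)), mt_stable hy' hs hX]
      exact ih _ h
    · rw [if_neg hX] at h
      exact absurd h (by simp)

/-- every partial matching with enough room can be extended so that the tree succeeds -/
lemma DT.exists_eval {β : Type} (T : DT n β) : ∀ (k : ℕ) (π : PS n),
    T.HtLe k → IsPP π → π.card + k ≤ n →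
    ∃ y x, π ⊆ y ∧ IsPP y ∧ y.card ≤ π.card + k ∧ T.eval y = some x := by
  induction T with
  | leaf x =>
    intro k π _ hπ _
    exact ⟨π, x, subset_rfl, hπ, by omega, rfl⟩
  | node X ch ih =>
    rintro k π ⟨k', h1, h2⟩ hπ hN
    obtain ⟨y1, hy1, hy2, hy3, hy4⟩ := exists_cover X π hπ (by omega)
    obtain ⟨y, x, hy5, hy6, hy7, hy8⟩ := ih (mt X y1) k' y1 (h2 _) hy2 (by omega)
    refine ⟨y, x, hy1.trans hy5, hy6, by omega, ?_⟩
    rw [DT.eval, if_pos (hy3.trans (cov_mono hy5)), mt_stable hy6 hy5 hy3]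
    exact hy8

end Pool.Agent.TH710.PHP
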