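import Pool.Agent.TH710.PHP.Defs
import Pool.Agent.TH710.PHP.Levels

/-!
Translation of formulas; merging of consecutive connectives of the same kind.
-/

set_option linter.unusedSectionVars false

namespace Pool.Agent.TH710.PHP

open Finset

variable {α : Type} {n : ℕ}

/-- disjunction of a list -/
def mkor (l : List (MF n)) : MF n := .or l.length (fun j => l.get j)

variable (g : α → MF n)

/-- `dc φ true` are the disjuncts of `φ`, `dc φ false` the disjuncts of `¬ φ` -/
def dc : Fm α → Bool → List (MF n)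
  | .var a, true => [g a]
  | .var a, false => [.neg (g a)]
  | .neg φ, s => dc φ (!s)
  | .or t φs, true => (List.finRange t).flatMap (fun j => dc (φs j) true)
  | .or t φs, false => [.neg (mkor ((List.finRange t).flatMap (fun j => dc (φs j) true)))]
  | .and t φs, false => (List.finRange t).flatMap (fun j => dc (φs j) false)
  | .and t φs, true => [.neg (mkor ((List.finRange t).flatMap (fun j => dc (φs j) false)))]

/-- the translation -/
def mf : Fm α → MF n
  | .var a => g a
  | .neg φ => .neg (mf φ)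
  | .or t φs => mkor ((List.finRange t).flatMap (fun j => dc g (φs j) true))
  | .and t φs => .neg (mkor ((List.finRange t).flatMap (fun j => dc g (φs j) false)))

variable {g} {k : ℕ}

lemma W_mkor_true {l : List (MF n)} {σ : PS n} :
    W k (mkor l) true σ ↔ ∃ ψ ∈ l, W k ψ true σ := by
  rw [mkor, W_or_true]
  constructor
  · rintro ⟨j, hj⟩
    exact ⟨l.get j, List.get_mem _ _, hj⟩
  · rintro ⟨ψ, hψ, h⟩
    obtain ⟨j, rfl⟩ := List.get_of_mem hψ
    exact ⟨j, h⟩

lemma W_mkor_false {l : List (MF n)} {σ : PS n} :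
    W k (mkor l) false σ ↔ ∀ π', IsPP π' → σ ⊆ π' →
      π'.card + k * (mkor l).dep ≤ n → ∀ ψ ∈ l, ¬ W k ψ true π' := by
  rw [mkor, W_or_false]
  constructor
  · intro h π' h1 h2 h3 ψ hψ
    obtain ⟨j, rfl⟩ := List.get_of_mem hψ
    exact h π' h1 h2 h3 j
  · intro h π' h1 h2 h3 j
    exact h π' h1 h2 h3 _ (List.get_mem _ _)

lemma W_neg {φ : MF n} {b : Bool} {σ : PS n} : W k (.neg φ) b σ ↔ W k φ (!b) σ := Iff.rfl

lemma W_dc (φ : Fm α) (σ : PS n) :
    (W k (mf g φ) true σ ↔ ∃ ψ ∈ dc g φ true, W k ψ true σ) ∧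
    (W k (mf g φ) false σ ↔ ∃ ψ ∈ dc g φ false, W k ψ true σ) := by
  induction φ with
  | var a => simp [mf, dc, W_neg]
  | neg φ ih =>
    constructor
    · rw [mf, W_neg]; exact ih.2
    · rw [mf, W_neg]; exact ih.1
  | or t φs ih =>
    constructor
    · rw [mf, W_mkor_true, dc]
    · rw [mf, dc]; simp [W_neg]
  | and t φs ih =>
    constructor
    · rw [mf, dc]; simp [W_neg]
    · rw [mf, W_neg, Bool.not_false, W_mkor_true, dc]

lemma W_mf_or_true {t : ℕ} {φs : Fin t → Fm α} {σ : PS n} :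
    W k (mf g (.or t φs)) true σ ↔ ∃ j, W k (mf g (φs j)) true σ := by
  rw [mf, W_mkor_true]
  constructor
  · rintro ⟨ψ, hψ, h⟩
    obtain ⟨j, _, hj⟩ := List.mem_flatMap.mp hψ
    exact ⟨j, (W_dc (φs j) σ).1.mpr ⟨ψ, hj, h⟩⟩
  · rintro ⟨j, hj⟩
    obtain ⟨ψ, h1, h2⟩ := (W_dc (φs j) σ).1.mp hj
    exact ⟨ψ, List.mem_flatMap.mpr ⟨j, List.mem_finRange j, h1⟩, h2⟩

lemma W_mf_and_false {t : ℕ} {φs : Fin t → Fm α} {σ : PS n} :
    W k (mf g (.and t φs)) false σ ↔ ∃ j, W k (mf g (φs j)) false σ := by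
  rw [mf, W_neg, Bool.not_false, W_mkor_true]
  constructor
  · rintro ⟨ψ, hψ, h⟩
    obtain ⟨j, _, hj⟩ := List.mem_flatMap.mp hψ
    exact ⟨j, (W_dc (φs j) σ).2.mpr ⟨ψ, hj, h⟩⟩
  · rintro ⟨j, hj⟩
    obtain ⟨ψ, h1, h2⟩ := (W_dc (φs j) σ).2.mp hj
    exact ⟨ψ, List.mem_flatMap.mpr ⟨j, List.mem_finRange j, h1⟩, h2⟩

lemma W_mf_or_false {t : ℕ} {φs : Fin t → Fm α} {σ : PS n} :
    W k (mf g (.or t φs)) false σ ↔ ∀ π', IsPP π' → σ ⊆ π' →
      π'.card + k * (mf g (.or t φs)).dep ≤ n → ∀ j, ¬ W k (mf g (φs j)) true π' := by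
  rw [mf, W_mkor_false]
  constructor
  · intro h π' h1 h2 h3 j hj
    obtain ⟨ψ, h4, h5⟩ := (W_dc (φs j) π').1.mp hj
    exact h π' h1 h2 h3 ψ (List.mem_flatMap.mpr ⟨j, List.mem_finRange j, h4⟩) h5
  · intro h π' h1 h2 h3 ψ hψ hW
    obtain ⟨j, _, hj⟩ := List.mem_flatMap.mp hψ
    exact h π' h1 h2 h3 j ((W_dc (φs j) π').1.mpr ⟨ψ, hj, hW⟩)

lemma W_mf_and_true {t : ℕ} {φs : Fin t → Fm α} {σ : PS n} :
    W k (mf g (.and t φs)) true σ ↔ ∀ π', IsPP π' → σ ⊆ π' →
      π'.card + k * (mf g (.and t φs)).dep ≤ n → ∀ j, ¬ W k (mf g (φs j)) false π' := by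
  have hdep : (mf g (.and t φs)).dep =
    (mkor ((List.finRange t).flatMap (fun j => dc g (φs j) false))).dep := rfl
  rw [hdep, mf, W_neg, Bool.not_true, W_mkor_false]
  constructor
  · intro h π' h1 h2 h3 j hj
    obtain ⟨ψ, h4, h5⟩ := (W_dc (φs j) π').2.mp hj
    exact h π' h1 h2 h3 ψ (List.mem_flatMap.mpr ⟨j, List.mem_finRange j, h4⟩) h5
  · intro h π' h1 h2 h3 ψ hψ hW
    obtain ⟨j, _, hj⟩ := List.mem_flatMap.mp hψ
    exact h π' h1 h2 h3 j ((W_dc (φs j) π').2.mpr ⟨ψ, hj, hW⟩)

/-! ### depth -/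

lemma dep_mkor {l : List (MF n)} {d : ℕ} (h : ∀ ψ ∈ l, ψ.dep ≤ d) : (mkor l).dep ≤ d + 1 := by
  simp only [mkor, MF.dep]
  have : univ.sup (fun j : Fin l.length => (l.get j).dep) ≤ d :=
    Finset.sup_le (fun j _ => h _ (List.get_mem _ _))
  omega

lemma dep_dc (hg : ∀ a, (g a).dep = 0) (φ : Fm α) : ∀ s, ∀ ψ ∈ dc g φ s, ψ.dep ≤ φ.alt s := by
  induction φ with
  | var a =>
    intro s ψ hψ
    cases s
    · simp only [dc, List.mem_singleton] at hψ
      subst hψ
      simp [MF.dep, hg]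
    · simp only [dc, List.mem_singleton] at hψ
      subst hψ
      simp [hg]
  | neg φ ih =>
    intro s ψ hψ
    exact ih (!s) ψ hψ
  | or t φs ih =>
    have h1 : ∀ ψ ∈ (List.finRange t).flatMap (fun j => dc g (φs j) true),
        ψ.dep ≤ univ.sup (fun j => (φs j).alt true) := by
      intro ψ hψ
      obtain ⟨j, _, hj⟩ := List.mem_flatMap.mp hψ
      exact (ih j true ψ hj).trans
        (Finset.le_sup (f := fun j => (φs j).alt true) (mem_univ j))
    intro s ψ hψ
    cases s
    · simp only [dc, List.mem_singleton] at hψ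
      subst hψ
      simp only [MF.dep, Fm.alt]
      exact dep_mkor h1
    · simp only [Fm.alt]
      exact h1 ψ hψ
  | and t φs ih =>
    have h1 : ∀ ψ ∈ (List.finRange t).flatMap (fun j => dc g (φs j) false),
        ψ.dep ≤ univ.sup (fun j => (φs j).alt false) := by
      intro ψ hψ
      obtain ⟨j, _, hj⟩ := List.mem_flatMap.mp hψ
      exact (ih j false ψ hj).trans
        (Finset.le_sup (f := fun j => (φs j).alt false) (mem_univ j))
    intro s ψ hψ
    cases s
    · simp only [Fm.alt]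
      exact h1 ψ hψ
    · simp only [dc, List.mem_singleton] at hψ
      subst hψ
      simp only [MF.dep, Fm.alt]
      exact dep_mkor h1

lemma dep_mf (hg : ∀ a, (g a).dep = 0) (φ : Fm α) : (mf g φ).dep ≤ φ.depth := by
  induction φ with
  | var a => simp [mf, hg]
  | neg φ ih =>
    simp only [mf, MF.dep]
    refine ih.trans ?_
    simp only [Fm.depth, Fm.alt, Bool.not_true, Bool.not_false]
    rw [max_comm]
  | or t φs ih =>
    have h := dep_dc hg (.or t φs) false (mf g (.neg (.or t φs))) (by simp [dc, mf])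
    simp only [mf, MF.dep] at h ⊢
    exact h.trans (le_max_right _ _)
  | and t φs ih =>
    have h := dep_dc hg (.and t φs) true (mf g (.and t φs)) (by simp [dc, mf])
    exact h.trans (le_max_left _ _)

lemma alt_le (φ : Fm α) : φ.alt true ≤ φ.alt false + 1 ∧ φ.alt false ≤ φ.alt true + 1 := by
  induction φ with
  | var a => simp [Fm.alt]
  | neg φ ih => simp only [Fm.alt, Bool.not_true, Bool.not_false]; exact ⟨ih.2, ih.1⟩
  | or t φs ih => simp only [Fm.alt]; omega
  | and t φs ih => simp only [Fm.alt]; omega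

lemma self_mem_sub (φ : Fm α) : φ ∈ φ.sub := by
  cases φ <;> simp [Fm.sub]

lemma depth_sub (φ : Fm α) : ∀ χ ∈ φ.sub, χ.depth ≤ φ.depth := by
  classical
  induction φ with
  | var a =>
    intro χ hχ
    simp only [Fm.sub, mem_singleton] at hχ
    rw [hχ]
  | neg φ ih =>
    intro χ hχ
    simp only [Fm.sub, mem_insert] at hχ
    rcases hχ with rfl | hχ
    · exact le_rfl
    · refine (ih χ hχ).trans (le_of_eq ?_)
      simp only [Fm.depth, Fm.alt, Bool.not_true, Bool.not_false]
      rw [max_comm]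
  | or t φs ih =>
    intro χ hχ
    simp only [Fm.sub, mem_insert, mem_biUnion, mem_univ, true_and] at hχ
    rcases hχ with rfl | ⟨j, hj⟩
    · exact le_rfl
    · refine (ih j χ hj).trans ?_
      have h1 := Finset.le_sup (f := fun j => (φs j).alt true) (mem_univ j)
      have h2 := (alt_le (φs j)).2
      simp only [Fm.depth, Fm.alt] at h1 ⊢
      omega
  | and t φs ih =>
    intro χ hχ
    simp only [Fm.sub, mem_insert, mem_biUnion, mem_univ, true_and] at hχ
    rcases hχ with rfl | ⟨j, hj⟩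
    · exact le_rfl
    · refine (ih j χ hj).trans ?_
      have h1 := Finset.le_sup (f := fun j => (φs j).alt false) (mem_univ j)
      have h2 := (alt_le (φs j)).1
      simp only [Fm.depth, Fm.alt] at h1 ⊢
      omega

lemma depth_allSub {T : ℕ} (L : Fin T → Fm α) {d : ℕ}
    (h : ∀ i, (L i).depth ≤ d) : ∀ φ ∈ allSub L, φ.depth ≤ d := by
  classical
  intro φ hφ
  simp only [allSub, mem_biUnion, mem_univ, true_and] at hφ
  obtain ⟨i, hi⟩ := hφ
  exact (depth_sub (L i) φ hi).trans (h i)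

/-- closed under immediate subformulas -/
structure ClosedFm (𝒰 : Finset (Fm α)) : Prop where
  neg : ∀ φ, Fm.neg φ ∈ 𝒰 → φ ∈ 𝒰
  or : ∀ t (φs : Fin t → Fm α), Fm.or t φs ∈ 𝒰 → ∀ j, φs j ∈ 𝒰
  and : ∀ t (φs : Fin t → Fm α), Fm.and t φs ∈ 𝒰 → ∀ j, φs j ∈ 𝒰

lemma sub_closed (ψ : Fm α) : ClosedFm ψ.sub := by
  classical
  induction ψ with
  | var a =>
    refine ⟨?_, ?_, ?_⟩ <;> intros <;> simp_all [Fm.sub]
  | neg φ ih =>
    refine ⟨?_, ?_, ?_⟩
    · intro χ hχ
      simp only [Fm.sub, mem_insert] at hχ ⊢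
      rcases hχ with h | h
      · rw [Fm.neg.injEq] at h
        rw [h]
        exact Or.inr (self_mem_sub φ)
      · exact Or.inr (ih.neg χ h)
    · intro t φs h j
      simp only [Fm.sub, mem_insert] at h ⊢
      rcases h with h | h
      · cases h
      · exact Or.inr (ih.or t φs h j)
    · intro t φs h j
      simp only [Fm.sub, mem_insert] at h ⊢
      rcases h with h | h
      · cases h
      · exact Or.inr (ih.and t φs h j)
  | or t φs ih =>
    refine ⟨?_, ?_, ?_⟩
    · intro χ hχ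
      simp only [Fm.sub, mem_insert, mem_biUnion, mem_univ, true_and] at hχ ⊢
      rcases hχ with h | ⟨l, h⟩
      · cases h
      · exact Or.inr ⟨l, (ih l).neg χ h⟩
    · intro t' φs' h j
      simp only [Fm.sub, mem_insert, mem_biUnion, mem_univ, true_and] at h ⊢
      rcases h with h | ⟨l, h⟩
      · cases h
        exact Or.inr ⟨j, self_mem_sub _⟩
      · exact Or.inr ⟨l, (ih l).or t' φs' h j⟩
    · intro t' φs' h j
      simp only [Fm.sub, mem_insert, mem_biUnion, mem_univ, true_and] at h ⊢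
      rcases h with h | ⟨l, h⟩
      · cases h
      · exact Or.inr ⟨l, (ih l).and t' φs' h j⟩
  | and t φs ih =>
    refine ⟨?_, ?_, ?_⟩
    · intro χ hχ
      simp only [Fm.sub, mem_insert, mem_biUnion, mem_univ, true_and] at hχ ⊢
      rcases hχ with h | ⟨l, h⟩
      · cases h
      · exact Or.inr ⟨l, (ih l).neg χ h⟩
    · intro t' φs' h j
      simp only [Fm.sub, mem_insert, mem_biUnion, mem_univ, true_and] at h ⊢
      rcases h with h | ⟨l, h⟩
      · cases h
      · exact Or.inr ⟨l, (ih l).or t' φs' h j⟩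
    · intro t' φs' h j
      simp only [Fm.sub, mem_insert, mem_biUnion, mem_univ, true_and] at h ⊢
      rcases h with h | ⟨l, h⟩
      · cases h
        exact Or.inr ⟨j, self_mem_sub _⟩
      · exact Or.inr ⟨l, (ih l).and t' φs' h j⟩

lemma allSub_closed {T : ℕ} (L : Fin T → Fm α) : ClosedFm (allSub L) := by
  classical
  refine ⟨?_, ?_, ?_⟩
  · intro χ hχ
    simp only [allSub, mem_biUnion, mem_univ, true_and] at hχ ⊢
    obtain ⟨i, hi⟩ := hχ
    exact ⟨i, (sub_closed (L i)).neg χ hi⟩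
  · intro t φs hχ j
    simp only [allSub, mem_biUnion, mem_univ, true_and] at hχ ⊢
    obtain ⟨i, hi⟩ := hχ
    exact ⟨i, (sub_closed (L i)).or t φs hi j⟩
  · intro t φs hχ j
    simp only [allSub, mem_biUnion, mem_univ, true_and] at hχ ⊢
    obtain ⟨i, hi⟩ := hχ
    exact ⟨i, (sub_closed (L i)).and t φs hi j⟩

lemma mem_allSub {T : ℕ} (L : Fin T → Fm α) (i : Fin T) : L i ∈ allSub L := by
  classical
  simp only [allSub, mem_biUnion, mem_univ, true_and]
  exact ⟨i, self_mem_sub _⟩

lemma card_sub (φ : Fm α) : φ.sub.card ≤ φ.size := by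
  classical
  induction φ with
  | var a => simp [Fm.sub, Fm.size]
  | neg φ ih =>
    simp only [Fm.sub, Fm.size]
    exact (card_insert_le _ _).trans (by omega)
  | or t φs ih =>
    simp only [Fm.sub, Fm.size]
    refine (card_insert_le _ _).trans (Nat.add_le_add_right ?_ 1)
    exact card_biUnion_le.trans (Finset.sum_le_sum (fun j _ => ih j))
  | and t φs ih =>
    simp only [Fm.sub, Fm.size]
    refine (card_insert_le _ _).trans (Nat.add_le_add_right ?_ 1)
    exact card_biUnion_le.trans (Finset.sum_le_sum (fun j _ => ih j))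

lemma card_allSub {T : ℕ} (L : Fin T → Fm α) : (allSub L).card ≤ ∑ i, (L i).size := by
  classical
  exact card_biUnion_le.trans (Finset.sum_le_sum (fun i _ => card_sub (L i)))

/-! ### the family of all translations -/

/-- the argument of the outermost negation of a translated conjunction -/
def inner (g : α → MF n) : Fm α → MF n
  | .and t φs => mkor ((List.finRange t).flatMap (fun j => dc g (φs j) false))
  | φ => mf g φ

open Classical in
/-- all formulas needed -/
noncomputable def fam (g : α → MF n) (𝒰 : Finset (Fm α)) : Finset (MF n) :=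
  𝒰.image (mf g) ∪ (𝒰.image (fun φ => .neg (mf g φ)) ∪ 𝒰.image (inner g))

lemma mem_fam {𝒰 : Finset (Fm α)} {φ : Fm α} (hφ : φ ∈ 𝒰) : mf g φ ∈ fam g 𝒰 := by
  classical
  exact mem_union_left _ (mem_image_of_mem _ hφ)

lemma mem_fam_neg {𝒰 : Finset (Fm α)} {φ : Fm α} (hφ : φ ∈ 𝒰) : .neg (mf g φ) ∈ fam g 𝒰 := by
  classical
  exact mem_union_right _ (mem_union_left _ (mem_image_of_mem (fun φ => MF.neg (mf g φ)) hφ))

lemma mem_fam_inner {𝒰 : Finset (Fm α)} {φ : Fm α} (hφ : φ ∈ 𝒰) : inner g φ ∈ fam g 𝒰 := by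
  classical
  exact mem_union_right _ (mem_union_right _ (mem_image_of_mem _ hφ))

lemma fam_card (𝒰 : Finset (Fm α)) : (fam g 𝒰).card ≤ 3 * 𝒰.card := by
  classical
  unfold fam
  refine (card_union_le _ _).trans ?_
  have h1 := card_union_le (𝒰.image (fun φ => MF.neg (mf g φ))) (𝒰.image (inner g))
  have h2 : (𝒰.image (mf g)).card ≤ 𝒰.card := card_image_le
  have h3 : (𝒰.image (fun φ => MF.neg (mf g φ))).card ≤ 𝒰.card := card_image_le
  have h4 : (𝒰.image (inner g)).card ≤ 𝒰.card := card_image_le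
  omega

/-- the disjuncts belong to the family -/
lemma dc_mem {𝒰 : Finset (Fm α)} (h𝒰 : ClosedFm 𝒰) (φ : Fm α) : φ ∈ 𝒰 →
    ∀ s, ∀ ψ ∈ dc g φ s, ψ ∈ fam g 𝒰 := by
  induction φ with
  | var a =>
    intro hφ s ψ hψ
    cases s
    · simp only [dc, List.mem_singleton] at hψ
      subst hψ
      exact mem_fam_neg hφ
    · simp only [dc, List.mem_singleton] at hψ
      subst hψ
      exact mem_fam hφ
  | neg φ ih =>
    intro hφ s ψ hψ
    exact ih (h𝒰.neg φ hφ) (!s) ψ hψ
  | or t φs ih =>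
    intro hφ s ψ hψ
    cases s
    · simp only [dc, List.mem_singleton] at hψ
      subst hψ
      exact mem_fam_neg hφ
    · obtain ⟨j, _, hj⟩ := List.mem_flatMap.mp hψ
      exact ih j (h𝒰.or t φs hφ j) true ψ hj
  | and t φs ih =>
    intro hφ s ψ hψ
    cases s
    · obtain ⟨j, _, hj⟩ := List.mem_flatMap.mp hψ
      exact ih j (h𝒰.and t φs hφ j) false ψ hj
    · simp only [dc, List.mem_singleton] at hψ
      subst hψ
      exact mem_fam hφ

/-- variables are translated to constants or variables -/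
def Atomic : MF n → Prop
  | .cst _ => True
  | .var _ => True
  | _ => False

lemma mkor_children {𝒰 : Finset (Fm α)} (h𝒰 : ClosedFm 𝒰) {t : ℕ} {φs : Fin t → Fm α} {s : Bool}
    (h : ∀ j, φs j ∈ 𝒰) {t' : ℕ} {ψs : Fin t' → MF n}
    (he : MF.or t' ψs = mkor ((List.finRange t).flatMap (fun j => dc g (φs j) s))) (j : Fin t') :
    ψs j ∈ fam g 𝒰 := by
  unfold mkor at he
  obtain ⟨rfl, he2⟩ := MF.or.inj he
  have := eq_of_heq he2
  subst this
  obtain ⟨l, _, hl⟩ := List.mem_flatMap.mp (List.get_mem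
    ((List.finRange t).flatMap (fun j => dc g (φs j) s)) j)
  exact dc_mem h𝒰 (φs l) (h l) s _ hl

lemma fam_closed (hg : ∀ a, Atomic (g a)) {𝒰 : Finset (Fm α)} (h𝒰 : ClosedFm 𝒰) :
    Closed (fam g 𝒰) := by
  classical
  constructor
  · intro ψ hψ
    simp only [fam, mem_union, mem_image] at hψ
    rcases hψ with ⟨φ, hφ, h⟩ | ⟨φ, hφ, h⟩ | ⟨φ, hφ, h⟩
    · cases φ with
      | var a =>
        have h1 := hg a
        simp only [mf] at h
        rw [h] at h1
        exact h1.elim
      | neg φ' =>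
        simp only [mf, MF.neg.injEq] at h
        rw [← h]
        exact mem_fam (h𝒰.neg φ' hφ)
      | or t φs => simp [mf, mkor] at h
      | and t φs =>
        simp only [mf, MF.neg.injEq] at h
        rw [← h]
        exact mem_fam_inner hφ
    · simp only [MF.neg.injEq] at h
      rw [← h]
      exact mem_fam hφ
    · cases φ with
      | var a =>
        have h1 := hg a
        simp only [inner, mf] at h
        rw [h] at h1
        exact h1.elim
      | neg φ' =>
        simp only [inner, mf, MF.neg.injEq] at h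
        rw [← h]
        exact mem_fam (h𝒰.neg φ' hφ)
      | or t φs => simp [inner, mf, mkor] at h
      | and t φs => simp [inner, mkor] at h
  · intro t ψs hψ j
    simp only [fam, mem_union, mem_image] at hψ
    rcases hψ with ⟨φ, hφ, h⟩ | ⟨φ, hφ, h⟩ | ⟨φ, hφ, h⟩
    · cases φ with
      | var a =>
        have h1 := hg a
        simp only [mf] at h
        rw [h] at h1
        exact h1.elim
      | neg φ' => simp [mf] at h
      | or t' φs =>
        simp only [mf] at h
        exact mkor_children h𝒰 (h𝒰.or t' φs hφ) h.symm j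
      | and t' φs => simp [mf] at h
    · exact absurd h (by simp)
    · cases φ with
      | var a =>
        have h1 := hg a
        simp only [inner, mf] at h
        rw [h] at h1
        exact h1.elim
      | neg φ' => simp [inner, mf] at h
      | or t' φs =>
        simp only [inner, mf] at h
        exact mkor_children h𝒰 (h𝒰.or t' φs hφ) h.symm j
      | and t' φs =>
        simp only [inner] at h
        exact mkor_children h𝒰 (h𝒰.and t' φs hφ) h.symm j

lemma dep_fam (hg : ∀ a, (g a).dep = 0) {𝒰 : Finset (Fm α)} {d : ℕ}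
    (h : ∀ φ ∈ 𝒰, φ.depth ≤ d) : ∀ ψ ∈ fam g 𝒰, ψ.dep ≤ d := by
  classical
  intro ψ hψ
  simp only [fam, mem_union, mem_image] at hψ
  rcases hψ with ⟨φ, hφ, rfl⟩ | ⟨φ, hφ, rfl⟩ | ⟨φ, hφ, rfl⟩
  · exact (dep_mf hg φ).trans (h φ hφ)
  · exact (dep_mf hg φ).trans (h φ hφ)
  · cases φ with
    | var a => exact (dep_mf hg _).trans (h _ hφ)
    | neg φ' => exact (dep_mf hg _).trans (h _ hφ)
    | or t φs => exact (dep_mf hg _).trans (h _ hφ)
    | and t φs => exact (dep_mf hg (.and t φs)).trans (h _ hφ)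

end Pool.Agent.TH710.PHP
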